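import Pool.Agent.Q36.IK.Gn
import Pool.Agent.Q36.GV.Cr
import Pool.Agent.W619.TW.Der
import Pool.Agent.W619.PQ.Dual

/-!
Frames on products.
-/

set_option autoImplicit false
set_option linter.overlappingInstances false
set_option linter.unusedSectionVars false

open Polynomial FF IsDedekindDomain IntermediateField
open Pool.Agent.W603.LV Pool.Agent.Y172 Pool.Agent.W619.TW Pool.Agent.W619.PQ Q36.GV

namespace Q36.IK

section

variable {k M : Type} [Field k] [CharZero k] [Field M] [Algebra k M]
  {s : ℕ} {d : Fin s → ℕ} (F : Fin s → IntermediateField k M)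

/-- the indices of the coordinates -/
abbrev Ix (d : Fin s → ℕ) : Type := (i : Fin s) × Fin (d i)

/-- A frame of vector fields on a product. -/
structure Frm (y : ∀ i, Fin (d i) → F i) (X : Ix d → Derivation k M M) (ε : Ix d → M) :
    Prop where
  basis : IsTranscendenceBasis k fun j : Ix d => (y j.1 j.2 : M)
  ne : ∀ j, ε j ≠ 0
  dual : ∀ j j', X j (y j'.1 j'.2 : M) = if j = j' then ε j else 0
  kill : ∀ j i, i ≠ j.1 → ∀ z ∈ F i, X j z = 0
  stab : ∀ j, ∀ z ∈ F j.1, X j z ∈ F j.1

variable {F}

theorem basis_ix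
    (hM : Algebra.trdeg k M = (∑ i, d i : ℕ)) (hsup : ⨆ i, F i = ⊤) {y : ∀ i, Fin (d i) → F i}
    (hy : ∀ i, IsTranscendenceBasis k (y i)) :
    IsTranscendenceBasis k fun j : Ix d => (y j.1 j.2 : M) := by
  have h1 := coords_basis F hM (by
    rw [hsup]
    exact ⟨fun z => isAlgebraic_algebraMap (⟨z, trivial⟩ : (⊤ : IntermediateField k M))⟩) y hy
  have h2 := (isTranscendenceBasis_equiv (finSigmaFinEquiv (n := d))).2 h1
  convert h2 using 1
  funext j
  change (y j.1 j.2 : M) = coords F y (finSigmaFinEquiv j)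
  unfold coords
  rw [Equiv.symm_apply_apply]

/-- evaluation of a sum of derivations -/
theorem sum_der {ι : Type} (t : Finset ι) (D : ι → Derivation k M M) (f : M) :
    (∑ j ∈ t, D j) f = ∑ j ∈ t, D j f := by
  classical
  induction t using Finset.induction_on with
  | empty => simp
  | insert j t hj ih => rw [Finset.sum_insert hj, Finset.sum_insert hj, Derivation.coe_add,
      Pi.add_apply, ih]

/-- existence of frames with given vector fields on the factors -/
theorem exists_frm
    (hM : Algebra.trdeg k M = (∑ i, d i : ℕ)) (hsup : ⨆ i, F i = ⊤) {y : ∀ i, Fin (d i) → F i}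
    (hy : ∀ i, IsTranscendenceBasis k (y i)) (G : ∀ i, Fin (d i) → Derivation k (F i) (F i))
    (ε : ∀ i, Fin (d i) → F i) (hε : ∀ i l, ε i l ≠ 0)
    (hG : ∀ i l l', G i l (y i l') = if l = l' then ε i l else 0) :
    ∃ X : Ix d → Derivation k M M, Frm F y X (fun j => (ε j.1 j.2 : M)) ∧
      ∀ (j : Ix d) (z : F j.1), X j (z : M) = (G j.1 j.2 z : M) := by
  classical
  have hb := basis_ix hM hsup hy
  choose D hD using fun j : Ix d => exists_dual (fun j : Ix d => (y j.1 j.2 : M)) hb j
  let X : Ix d → Derivation k M M := fun j => (ε j.1 j.2 : M) • D j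
  have hX : ∀ j j' : Ix d, X j (y j'.1 j'.2 : M) = if j = j' then (ε j.1 j.2 : M) else 0 := by
    intro j j'
    change (ε j.1 j.2 : M) • D j (y j'.1 j'.2 : M) = _
    rw [hD, smul_eq_mul]
    by_cases h : j = j'
    · rw [if_pos h, if_pos h.symm, mul_one]
    · rw [if_neg h, if_neg fun h' => h h'.symm, mul_zero]
  have hr : ∀ (j : Ix d) (z : F j.1), X j (z : M) = (G j.1 j.2 z : M) := by
    intro j z
    refine der_comp (K := F j.1) (G j.1 j.2) (X j) (y j.1) (hy j.1) (fun l => ?_) z
    change X j (y j.1 l : M) = (G j.1 j.2 (y j.1 l) : M)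
    have h1 := hX j ⟨j.1, l⟩
    rw [hG]
    rw [h1]
    by_cases h : j.2 = l
    · rw [if_pos h, if_pos]
      obtain ⟨j1, j2⟩ := j
      change j2 = l at h
      subst h
      rfl
    · rw [if_neg h, if_neg]
      · rfl
      · intro h'
        apply h
        obtain ⟨j1, j2⟩ := j
        change (⟨j1, j2⟩ : Ix d) = ⟨j1, l⟩ at h'
        have h2 := (Sigma.mk.injEq _ _ _ _).mp h'
        exact eq_of_heq h2.2
  refine ⟨X, ⟨hb, fun j => ?_, hX, ?_, ?_⟩, hr⟩
  · intro h
    exact hε j.1 j.2 (Subtype.ext h)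
  · intro j i hi z hz
    have h1 := der_zero ((X j).compAlgebraMap (F i)) (y i) (hy i) (fun l => by
      change X j (y i l : M) = 0
      have h2 := hX j ⟨i, l⟩
      rw [h2, if_neg]
      rintro rfl
      exact hi rfl) ⟨z, hz⟩
    exact h1
  · intro j z hz
    rw [hr j ⟨z, hz⟩]
    exact (G j.1 j.2 _).2

variable {y : ∀ i, Fin (d i) → F i} {X : Ix d → Derivation k M M} {ε : Ix d → M}

/-- every vector field is a combination of the frame -/
theorem Frm.span (h : Frm F y X ε) (D : Derivation k M M) (f : M) :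
    D f = ∑ j, (D (y j.1 j.2 : M) / ε j) * X j f := by
  classical
  have h1 := der_zero (D - ∑ j, (D (y j.1 j.2 : M) / ε j) • X j) _ h.basis (fun i => by
    rw [Derivation.coe_sub, Pi.sub_apply, sub_eq_zero]
    rw [sum_der, Finset.sum_eq_single i]
    · rw [Derivation.coe_smul, Pi.smul_apply, h.dual, if_pos rfl, smul_eq_mul,
        div_mul_cancel₀ _ (h.ne i)]
    · intro j _ hj
      rw [Derivation.coe_smul, Pi.smul_apply, h.dual, if_neg hj, smul_zero]
    · intro hi
      exact absurd (Finset.mem_univ i) hi) f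
  rw [Derivation.coe_sub, Pi.sub_apply, sub_eq_zero, sum_der] at h1
  rw [h1]
  rfl

/-- uniqueness of the coefficients -/
theorem Frm.coef (h : Frm F y X ε) {D : Derivation k M M} {m : Ix d → M}
    (hD : ∀ f, D f = ∑ j, m j * X j f) (j : Ix d) : D (y j.1 j.2 : M) = m j * ε j := by
  classical
  rw [hD, Finset.sum_eq_single j]
  · rw [h.dual, if_pos rfl]
  · intro i _ hi
    rw [h.dual, if_neg hi, mul_zero]
  · intro hi
    exact absurd (Finset.mem_univ j) hi

/-- the frame preserves the composita -/
theorem Frm.stabN [IsAlgClosed k] [∀ i, Algebra.EssFiniteType k (F i)] (h : Frm F y X ε) {N : IntermediateField k M} {S : Finset (Fin s)}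
    (hN : N = part F S) (j : Ix d) : ∀ z ∈ N, X j z ∈ N := by
  subst hN
  have h1 : part F S ≤ Pool.Agent.W619.TW.stab (X j) (part F S) := by
    refine iSup_le fun i z hz => ?_
    refine ⟨le_part F i.2 hz, ?_⟩
    by_cases hij : i.1 = j.1
    · have h2 : z ∈ F j.1 := by
        rw [← hij]
        exact hz
      have h3 := h.stab j z h2
      rw [← hij] at h3
      exact le_part F i.2 h3
    · rw [h.kill j i.1 hij z hz]
      exact zero_mem _
  exact fun z hz => (h1 hz).2

/-- vector fields in the directions outside a partial product kill it -/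
theorem Frm.killN [IsAlgClosed k] [∀ i, Algebra.EssFiniteType k (F i)] (h : Frm F y X ε) {S : Finset (Fin s)} {j : Ix d} (hj : j.1 ∉ S) :
    Kills (X j) (part F S) := by
  have h1 : part F S ≤ Pool.Agent.W602.GT.consts (X j) := by
    refine iSup_le fun i z hz => ?_
    exact h.kill j i.1 (fun hij => hj (by rw [← hij]; exact i.2)) z hz
  exact fun z hz => h1 hz

end

end Q36.IK
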