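import Pool.Agent.Q36.IK.Pr
import Pool.Agent.Helper386.D5V.Helper399_FF4a

/-!
Vector fields on products which preserve the divisors which are not exceptional.
-/

set_option autoImplicit false
set_option linter.overlappingInstances false
set_option linter.unusedSectionVars false

open Polynomial FF IsDedekindDomain IntermediateField
open Pool.Agent.W603.LV Pool.Agent.Y172 Pool.Agent.W619.TW

namespace Q36.IK

section

variable {k M : Type} [Field k] [CharZero k] [Field M] [Algebra k M]

/-- the fractions of a subalgebra -/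
def fracB (B : Subalgebra k M) : IntermediateField k M where
  carrier := {z | ∃ a ∈ B, ∃ b ∈ B, b ≠ 0 ∧ z * b = a}
  mul_mem' := by
    rintro y z ⟨a, ha, b, hb, hb0, h⟩ ⟨a', ha', b', hb', hb0', h'⟩
    refine ⟨a * a', B.mul_mem ha ha', b * b', B.mul_mem hb hb', mul_ne_zero hb0 hb0', ?_⟩
    rw [← h, ← h']
    ring
  one_mem' := ⟨1, B.one_mem, 1, B.one_mem, one_ne_zero, one_mul 1⟩
  add_mem' := by
    rintro y z ⟨a, ha, b, hb, hb0, h⟩ ⟨a', ha', b', hb', hb0', h'⟩
    refine ⟨a * b' + a' * b, B.add_mem (B.mul_mem ha hb') (B.mul_mem ha' hb), b * b',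
      B.mul_mem hb hb', mul_ne_zero hb0 hb0', ?_⟩
    rw [← h, ← h']
    ring
  zero_mem' := ⟨0, B.zero_mem, 1, B.one_mem, one_ne_zero, zero_mul 1⟩
  algebraMap_mem' := fun r => ⟨algebraMap k M r, B.algebraMap_mem r, 1, B.one_mem, one_ne_zero,
    mul_one _⟩
  inv_mem' := by
    rintro y ⟨a, ha, b, hb, hb0, h⟩
    by_cases hy : y = 0
    · rw [hy, inv_zero]
      exact ⟨0, B.zero_mem, 1, B.one_mem, one_ne_zero, zero_mul 1⟩
    · have ha0 : a ≠ 0 := by
        rw [← h]
        exact mul_ne_zero hy hb0
      refine ⟨b, hb, a, ha, ha0, ?_⟩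
      rw [← h]
      field_simp

/-- the subalgebra generated by a field and the regular functions on the factors -/
def regB (N : IntermediateField k M) {ι : Type} (F : ι → IntermediateField k M)
    (w : Place N M) : Subalgebra k M :=
  Algebra.adjoin k ((N : Set M) ∪ ⋃ i, {z | z ∈ F i ∧ w.Reg z})

theorem N_regB {N : IntermediateField k M} {ι : Type} {F : ι → IntermediateField k M}
    {w : Place N M} {z : M} (hz : z ∈ N) : z ∈ regB N F w :=
  Algebra.subset_adjoin (Or.inl hz)

theorem F_regB {N : IntermediateField k M} {ι : Type} {F : ι → IntermediateField k M}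
    {w : Place N M} {i : ι} {z : M} (hz : z ∈ F i) (hw : w.Reg z) : z ∈ regB N F w :=
  Algebra.subset_adjoin (Or.inr (Set.mem_iUnion.2 ⟨i, hz, hw⟩))

theorem regB_reg {N : IntermediateField k M} {ι : Type} {F : ι → IntermediateField k M}
    {w : Place N M} {z : M} (hz : z ∈ regB N F w) : w.Reg z := by
  induction hz using Algebra.adjoin_induction with
  | mem z hz =>
    rcases hz with hz | hz
    · exact w.reg_const ⟨z, hz⟩
    · obtain ⟨i, hi⟩ := Set.mem_iUnion.1 hz
      exact hi.2
  | algebraMap r =>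
    have h1 := w.reg_const (algebraMap k N r)
    rwa [← IsScalarTower.algebraMap_apply] at h1
  | add x y _ _ hx hy => exact w.reg_add hx hy
  | mul x y _ _ hx hy => exact w.reg_mul hx hy

/-- **Vector fields which preserve the places over a subfield.** -/
theorem pres_gen {N : IntermediateField k M} [IsFF N M] (w : Place N M) {ι : Type}
    (F : ι → IntermediateField k M)
    (hsup : ∀ N' : IntermediateField k M, N ≤ N' → (∀ i, F i ≤ N') → N' = ⊤)
    (D : Derivation k M M) (hN : ∀ z ∈ N, D z ∈ N)
    (hF : ∀ i, ∀ z ∈ F i, w.Reg z → D z ∈ regB N F w) {z : M} (hz : w.Reg z) :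
    w.Reg (D z) := by
  refine pres_place w D (regB N F w) (fun z hz => N_regB hz) (fun z hz => regB_reg hz)
    (fun z hz => ?_) (fun z => ?_) hz
  · induction hz using Algebra.adjoin_induction with
    | mem z hz =>
      rcases hz with hz | hz
      · exact N_regB (hN z hz)
      · obtain ⟨i, hi⟩ := Set.mem_iUnion.1 hz
        exact hF i z hi.1 hi.2
    | algebraMap r =>
      rw [D.map_algebraMap]
      exact Subalgebra.zero_mem _
    | add x y _ _ hx hy =>
      rw [map_add]
      exact Subalgebra.add_mem _ hx hy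
    | mul x y hx' hy' hx hy =>
      rw [Derivation.leibniz, smul_eq_mul, smul_eq_mul]
      exact Subalgebra.add_mem _ (Subalgebra.mul_mem _ hx' hy) (Subalgebra.mul_mem _ hy' hx)
  · have h1 : fracB (regB N F w) = ⊤ := by
      refine hsup _ (fun z hz => ⟨z, N_regB hz, 1, Subalgebra.one_mem _, one_ne_zero, mul_one z⟩)
        fun i z hz => ?_
      by_cases hw : w.Reg z
      · exact ⟨z, F_regB hz hw, 1, Subalgebra.one_mem _, one_ne_zero, mul_one z⟩
      · have hz0 : z ≠ 0 := fun h => hw (Or.inl h)
        have h2 : w.Reg z⁻¹ := by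
          rw [w.reg_iff hz0, not_le] at hw
          rw [w.reg_iff (inv_ne_zero hz0), w.ord_inv]
          omega
        exact ⟨1, Subalgebra.one_mem _, z⁻¹, F_regB (inv_mem hz) h2, inv_ne_zero hz0,
          mul_inv_cancel₀ hz0⟩
    have h2 : z ∈ fracB (regB N F w) := by
      rw [h1]
      exact IntermediateField.mem_top
    exact h2

/-- `D` is a regular vector field on the curve with function field `F`. -/
def RegVF {k F : Type} [Field k] [Field F] [Algebra k F] (D : Derivation k F F) : Prop :=
  D ≠ 0 ∧ ∀ (w : Place k F) (z : F), w.Reg z → w.Reg (D z)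

/-- A regular vector field preserves all places of larger fields. -/
theorem reg_pres (F : IntermediateField k M) {D : Derivation k F F} (hD : RegVF D)
    (w : Place k M) (z : F) (hz : w.Reg (z : M)) : w.Reg (D z : M) := by
  by_cases h : ∃ f : F, w.ord (algebraMap F M f) ≠ 0
  · obtain ⟨e, u, hu⟩ := exists_over (K := F) w h
    exact hu.reg.2 (hD.2 u z (hu.reg.1 hz))
  · push Not at h
    exact Or.inr (h (D z)).ge

/-- The vector field on an elliptic curve is regular. -/
theorem ell_vf [IsAlgClosed k] {F : Type} [Field F] [Algebra k F] [hF : IsFF k F]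
    {D : Derivation k F F}
    (hD : ∀ w : Place k F, ∀ t : F, w.ord t = 1 → D t ≠ 0 ∧ w.ord (D t) = 0) : RegVF D := by
  have hD0 : D ≠ 0 := by
    obtain ⟨x, hx⟩ := IsFF.exists_transcendental (k := k) (K := F)
    obtain ⟨S', h2, h3⟩ := poles (k := k) (K := F) hx
    have h4 := IsFF.finite (k := k) (K := F) hx
    have h5 : (∑ w ∈ S', (-w.ord x).toNat * w.deg) ≠ 0 := by
      rw [h3]
      exact Module.finrank_pos.ne'
    obtain ⟨w, -, -⟩ := Finset.exists_ne_zero_of_sum_ne_zero h5
    obtain ⟨t, ht0, ht⟩ := w.surj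
    rintro rfl
    exact (hD w t ht).1 rfl
  refine ⟨hD0, fun u z h1 => ?_⟩
  obtain ⟨t, ht0, ht⟩ := u.surj
  obtain ⟨g, hg, hg'⟩ := der_mul u ht hD0 h1
  rw [hg']
  refine u.reg_mul (Or.inr ?_) hg
  rw [(hD u t ht).2]

end

end Q36.IK
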