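import Pool.Agent.Q36.IK.Sg

/-!
Iitaka's inequality for varieties dominated by products, with the lower bound.
-/

set_option autoImplicit false
set_option linter.overlappingInstances false
set_option linter.unusedSectionVars false

open Polynomial FF IsDedekindDomain IntermediateField
open Pool.Agent.W603.LV Pool.Agent.Y172 Pool.Agent.W619.TW Pool.Agent.W619.PQ Q36.GV Q36.PT
  Q36.GP

namespace Q36.IK

/-- fewer forms -/
theorem img_mono {k K : Type} [Field k] [Field K] [Algebra k K] {n : ℕ} {Bd : Place k K → Prop}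
    {m h h' : ℕ} (hh : h' ≤ h) (hi : ImageGe k K n Bd m h) : ImageGe k K n Bd m h' := by
  obtain ⟨ω, h1, D, h2, h3⟩ := hi
  refine ⟨fun l => ω (Fin.castLE (by omega) l), fun l => h1 _, D, fun l => h2 _, ?_⟩
  have h4 := h3.comp (Fin.castLE hh) (Fin.castLE_injective hh)
  exact h4

section

variable {k M : Type} [Field k] [CharZero k] [IsAlgClosed k] [Field M] [Algebra k M]
  {s : ℕ} {d : Fin s → ℕ} (F : Fin s → IntermediateField k M)
  [hess : ∀ i, Algebra.EssFiniteType k (F i)]

/-- elliptic curves -/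
def Ell (W : IntermediateField k M) : Prop := IsFF k W ∧ IsElliptic W

open scoped Classical in
/-- **Iitaka's inequality for dominated varieties.** -/
theorem iitaka_dom (hd : ∀ i, Algebra.trdeg k (F i) = d i)
    (hM : Algebra.trdeg k M = (∑ i, d i : ℕ)) (hsup : ⨆ i, F i = ⊤)
    {L : Type} [Field L] [Algebra k L] [Algebra L M] [IsScalarTower k L M]
    [FiniteDimensional L M] {c : Fin s → ℕ}
    (hW : ∀ i,
      (ImageGe k (F i) (d i) (fun _ => False) 1 (d i) ∧ (c i = 0 ∨ CanSepJ k (F i) (d i) (c i + 1)))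
      ∨ (IsFF k (F i) ∧ ∀ b : F i, Transcendental k b → c i + 2 ≤ Module.finrank k⟮b⟯ (F i)))
    (B : Finset (Fin s))
    (hB : ∀ i ∈ B, 2 * Module.finrank L (IntermediateField.adjoin L (F i : Set M)) ≤ c i + 1)
    (hQ : ∀ Q : Finset (Fin s), Disjoint Q B →
      Module.finrank (IntermediateField.adjoin L {z : M | ∃ j, j ∉ Q ∧ z ∈ F j}) M = 1 ∨
      2 * Module.finrank (IntermediateField.adjoin L {z : M | ∃ j, j ∉ Q ∧ z ∈ F j}) M ≤
        1 + ∑ j ∈ Q, c j) :
    ImageGe k L (∑ i, d i) (fun _ => False) 1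
      (∑ i ∈ Finset.univ.filter (fun i => ¬ Ell (F i)), d i) ∧
    ∀ (K : IntermediateField k L) [Algebra.EssFiniteType k K] (p q : ℕ),
      Algebra.trdeg k K = p → Algebra.trdeg K L = q → ∀ m m' u v : ℕ, 1 ≤ m' →
      ImageGe K L q (fun _ => False) m u → ImageGe k K p (fun _ => False) m' v →
      u + v ≤ ∑ i ∈ Finset.univ.filter (fun i => ¬ Ell (F i)), d i := by
  classical
  have hessM : Algebra.EssFiniteType k M := ess_supW F hsup
  have hessL : Algebra.EssFiniteType k L := Q36.SD.ess_below (K := M)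
  let a : Fin s → ℕ := fun i => if Ell (F i) then 0 else d i
  have hsum : ∑ i, a i = ∑ i ∈ Finset.univ.filter (fun i => ¬ Ell (F i)), d i := by
    rw [Finset.sum_filter]
    refine Finset.sum_congr rfl fun i _ => ?_
    by_cases h : Ell (F i)
    · simp [a, h]
    · simp [a, h]
  have hd1 : ∀ i, IsFF k (F i) → d i = 1 := by
    intro i hi
    have h4 := IsFF.trdeg (k := k) (K := F i)
    rw [hd i] at h4
    exact_mod_cast h4
  have hpair : ∀ i, CanSepJ k (F i) (d i) (c i + 1) ∧
      ImageGe k (F i) (d i) (fun _ => False) 1 (a i) := by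
    intro i
    rcases hW i with ⟨h1, h2⟩ | ⟨h1, h2⟩
    · refine ⟨?_, img_mono (by simp only [a]; split_ifs <;> omega) h1⟩
      rcases h2 with h2 | h2
      · rw [h2]
        refine sep_one ?_
        obtain ⟨ω, h4, D, h5, -⟩ := h1
        exact ⟨ω 0, (reg_of_sec (h4 0)).1, (reg_of_sec (h4 0)).2, D, h5 0⟩
      · exact h2
    · have h3 := gfac_curve (F i) (hd i) (c := c i) h2
      refine ⟨h3.sep, ?_⟩
      have ha : a i = if IsElliptic (F i) then 0 else 1 := by
        have h4 := hd1 i h1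
        by_cases h5 : IsElliptic (F i)
        · have h6 : Ell (F i) := ⟨h1, h5⟩
          simp [a, h5, h6]
        · have h6 : ¬ Ell (F i) := fun h => h5 h.2
          simp [a, h5, h6, h4]
      rw [ha]
      exact h3.img
  refine ⟨?_, fun K hKess p q hK hL m m' u v hm' hF' hB' => ?_⟩
  · rw [← hsum]
    refine imageV (L := L) F hM (alg_of_sup' F hsup) hd (m := fun i => c i + 1)
      (fun i => Nat.le_add_left 1 _) (fun i => (hpair i).1) (fun i => (hpair i).2) B hB
      fun Q hQB => ?_
    have h3 : ∑ j ∈ Q, (c j + 1 - 1) = ∑ j ∈ Q, c j :=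
      Finset.sum_congr rfl fun j _ => Nat.add_sub_cancel _ _
    rw [h3]
    exact hQ Q hQB
  · refine iitaka_up F hd hM hsup _ (fun i hi => ?_) hK hL hm' hF' hB'
    simp only [Finset.mem_filter, Finset.mem_univ, true_and, not_not] at hi
    obtain ⟨h2, D, hD⟩ := hi
    exact ⟨hd1 i h2, h2, D, ell_vf hD⟩

end

end Q36.IK
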