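import Pool.Agent.Q36.IK.Si
import Pool.Agent.Q36.PT.Ma

/-!
Iitaka's inequality for the fibrations of quotients of products of curves.
-/

set_option autoImplicit false
set_option linter.overlappingInstances false
set_option linter.unusedSectionVars false

open Polynomial FF IsDedekindDomain IntermediateField
open Pool.Agent.W603.LV Pool.Agent.Y172 Pool.Agent.W619.TW Pool.Agent.W619.PQ Pool.Agent.W619.X
  Pool.Agent.W619.Y Q36.GV Q36.PT Q36.GP

namespace Q36.IK

section

variable {k M : Type} [Field k] [CharZero k] [IsAlgClosed k] [Field M] [Algebra k M]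
  {n : ℕ} (F : Fin n → IntermediateField k M) [hF : ∀ i, IsFF k (F i)]

/-- **The upper bound for products of curves.** -/
theorem iitaka_curves (hM : Algebra.trdeg k M = n) (hsup : ⨆ i, F i = ⊤)
    {L : Type} [Field L] [Algebra k L] [Algebra L M] [IsScalarTower k L M]
    [FiniteDimensional L M] (K : IntermediateField k L) [Algebra.EssFiniteType k K] {p q : ℕ}
    (hK : Algebra.trdeg k K = p) (hL : Algebra.trdeg K L = q) {m m' u v : ℕ} (hm : 1 ≤ m)
    (hm' : 1 ≤ m') (hf : ImageGe K L q (fun _ => False) m u)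
    (hb : ImageGe k K p (fun _ => False) m' v) :
    (∀ i, ¬ ∃ t : F i, k⟮t⟯ = ⊤) ∧ u + v ≤ {i | ¬ IsElliptic (F i)}.ncard := by
  classical
  have hess : ∀ i, Algebra.EssFiniteType k (F i) := fun i => IsFF.ess
  have hessM : Algebra.EssFiniteType k M := ess_supW F hsup
  have hessL : Algebra.EssFiniteType k L := Q36.SD.ess_below (K := M)
  have hd : ∀ i, Algebra.trdeg k (F i) = ((fun _ => 1 : Fin n → ℕ) i : ℕ) := fun i => by
    rw [IsFF.trdeg (k := k) (K := F i)]
    simp
  have hM' : Algebra.trdeg k M = (∑ i, (fun _ => 1 : Fin n → ℕ) i : ℕ) := by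
    rw [hM]
    simp
  refine ⟨fun i0 ⟨t, ht⟩ => ?_, ?_⟩
  · obtain ⟨h1, D, h2, h3⟩ := rat_vf ht
    exact iitaka_neg F hd hM' hsup i0 rfl (hF i0) h1 h2 h3 hK hL hm hm' hf hb
  · have h1 := iitaka_up F hd hM' hsup (Finset.univ.filter fun i => ¬ IsElliptic (F i))
      (fun i hi => by
        simp only [Finset.mem_filter, Finset.mem_univ, true_and, not_not] at hi
        obtain ⟨D, hD⟩ := hi
        exact ⟨rfl, hF i, D, ell_vf hD⟩) hK hL hm' hf hb
    rw [Set.ncard_eq_toFinset_card', Set.toFinset_ofPred]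
    simpa using h1

end

end Q36.IK
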