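import Pool.Agent.Q36.IK.Gn

/-!
Pull-backs of pluricanonical forms.
-/

set_option autoImplicit false
set_option linter.overlappingInstances false
set_option linter.unusedSectionVars false

open Polynomial FF IsDedekindDomain IntermediateField
open Pool.Agent.W602.GT Pool.Agent.W603.LV Pool.Agent.W619.PQ Pool.Agent.W619.TW
  Pool.Agent.Y172 Pool.Agent.Y692.NT Pool.Agent.W619.Y Q36.GV Q36.PT Q36.SD Q36.HB

namespace Q36.IK

section

variable {k K N : Type} [Field k] [CharZero k] [Field K] [Field N] [Algebra k K] [Algebra k N]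
  [Algebra K N] [IsScalarTower k K N] {n : ℕ}

/-- **The pull-back of a regular pluricanonical form is regular.** -/
theorem pull_reg [Algebra.EssFiniteType k K] (hn : Algebra.trdeg k K = n) {ν : ℕ}
    (hν : Algebra.trdeg k N = ν) {y : Fin n → K} {E : Fin n → Derivation k K K}
    (hy : IsTranscendenceBasis k y) (hE : ∀ i j, E i (y j) = if i = j then 1 else 0) {m : ℕ}
    {η : (Fin n → Derivation k K K) → K} (hpl : IsPluriForm k K n m η)
    (hη : ∀ v : Place k K, IsDivisorial v n → RegularAt v n η)
    (w : Place k N) (hw : IsDivisorial w ν) (G : Fin n → Derivation k N N)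
    (hG : ∀ j, ∀ f, w.Reg f → w.Reg (G j f)) :
    w.Reg (algebraMap K N (η E) *
      (Matrix.of fun a b => G a (algebraMap K N (y b))).det ^ m) := by
  classical
  by_cases htriv : ∃ f : K, w.ord (algebraMap K N f) ≠ 0
  · obtain ⟨e, u, hu⟩ := exists_over (K := K) w htriv
    have hdiv : IsDivisorial u n := pDIVR.{0, 0} k K N n ν u w e hn hν hu hw
    obtain ⟨y', E', i0, hl⟩ := exists_loc hn hdiv
    have hreg : ∀ f : K, u.Reg f → w.Reg (algebraMap K N f) := fun f hf => by
      have h9 := (Pool.Agent.Y172.over_ge hu (c := 0) (f := f)).2 hf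
      rw [mul_zero] at h9
      exact h9
    have h1 : η E' = (Matrix.of fun i j => E' i (y j)).det ^ m * η E :=
      Pool.Agent.Y172.pluri_coord hy hE hpl E'
    have h2 : (Matrix.of fun a b => G a (algebraMap K N (y b))) =
        (Matrix.of fun a c => G a (algebraMap K N (y' c))) *
          (Matrix.of fun c b => algebraMap K N (E' c (y b))) := by
      ext a b
      rw [Matrix.of_apply, Matrix.mul_apply,
        Pool.Agent.W308.PG.YLOC.expand y' E' hl.bas hl.dual (G a) (y b)]
      refine Finset.sum_congr rfl fun c _ => ?_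
      rw [Matrix.of_apply, Matrix.of_apply, mul_comm]
    have h3 : (Matrix.of fun c b => algebraMap K N (E' c (y b))).det =
        algebraMap K N (Matrix.of fun i j => E' i (y j)).det := by
      rw [RingHom.map_det]
      rfl
    have h4 : algebraMap K N (η E) * (Matrix.of fun a b => G a (algebraMap K N (y b))).det ^ m =
        algebraMap K N (η E') * (Matrix.of fun a c => G a (algebraMap K N (y' c))).det ^ m := by
      rw [h2, Matrix.det_mul, h3, h1, map_mul, map_pow, mul_pow]
      ring
    rw [h4]
    refine w.reg_mul (hreg _ (hη u hdiv _ fun j f hf => hl.pres _ f hf)) ?_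
    have h5 : Ge w 0 (Matrix.of fun a c => G a (algebraMap K N (y' c))).det :=
      Pool.Agent.W619.PQ.ge_det w _ fun a b => hG a _ (hreg _ (hl.reg _))
    have h6 := h5.pow m
    rw [mul_zero] at h6
    exact h6
  · push Not at htriv
    refine w.reg_mul (Or.inr (htriv _).ge) ?_
    have h5 : Ge w 0 (Matrix.of fun a b => G a (algebraMap K N (y b))).det :=
      Pool.Agent.W619.PQ.ge_det w _ fun a b => hG a _ (Or.inr (htriv _).ge)
    have h6 := h5.pow m
    rw [mul_zero] at h6
    exact h6

end

section

/-- places over a larger field of constants are divisorial -/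
theorem dn_div {k N M : Type} [Field k] [Field N] [Field M] [Algebra k M] [Algebra N M]
    [Algebra k N] [IsScalarTower k N M] {r : ℕ} (hr : Algebra.trdeg k N = r) (w : Place N M) :
    IsDivisorial (dn k w) (r + 1) := by
  have hb : ∃ y : Fin r → N, IsTranscendenceBasis k y := by
    obtain ⟨ι, z, hz⟩ := exists_isTranscendenceBasis' k N
    have h1 := hz.cardinalMk_eq_trdeg
    rw [hr] at h1
    have h2 : Cardinal.lift.{0} (Cardinal.mk ι) = Cardinal.lift.{0} (Cardinal.mk (Fin r)) := by
      rw [h1]
      simp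
    obtain ⟨e⟩ := Cardinal.lift_mk_eq'.1 h2
    exact ⟨fun b => z (e.symm b), (isTranscendenceBasis_equiv e.symm).2 hz⟩
  obtain ⟨y, hy⟩ := hb
  refine ⟨fun b => algebraMap N M (y b), fun p hp => ?_⟩
  have h1 : MvPolynomial.aeval (fun b : Fin r => algebraMap N M (y b)) p =
      algebraMap N M (MvPolynomial.aeval y p) := by
    rw [← MvPolynomial.aeval_algebraMap_apply]
    rfl
  have h2 : MvPolynomial.aeval y p ≠ 0 := fun h => hp (hy.1.eq_zero_of_aeval_eq_zero p h)
  change MvPolynomial.aeval (fun b : Fin r => algebraMap N M (y b)) p ≠ 0 ∧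
    w.ord (MvPolynomial.aeval (fun b : Fin r => algebraMap N M (y b)) p) = 0
  rw [h1]
  exact ⟨(_root_.map_ne_zero _).2 h2, w.ord_const h2⟩

/-- a function without poles is constant -/
theorem alg_of_reg {N M : Type} [Field N] [CharZero N] [Field M] [Algebra N M] [IsFF N M] {f : M}
    (h : ∀ w : Place N M, w.Reg f) : IsAlgebraic N f := by
  by_contra hf
  obtain ⟨S, h1, h3⟩ := poles (k := N) (K := M) hf
  have h4 := IsFF.finite (k := N) (K := M) hf
  have h5 : (∑ w ∈ S, (-w.ord f).toNat * w.deg) ≠ 0 := by
    rw [h3]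
    exact Module.finrank_pos.ne'
  obtain ⟨w, hw, -⟩ := Finset.exists_ne_zero_of_sum_ne_zero h5
  have h6 := (h1 w).1 hw
  rcases h w with h7 | h7
  · exact hf (h7 ▸ isAlgebraic_zero)
  · omega

end

end Q36.IK
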