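import Pool.Agent.Q36.IK.Sb

/-!
Derivations preserve the places of a function field in one variable over a subfield.
-/

set_option autoImplicit false
set_option linter.overlappingInstances false
set_option linter.unusedSectionVars false

open Polynomial FF IsDedekindDomain IntermediateField
open Pool.Agent.W603.LV Pool.Agent.Y172

namespace Q36.IK

section

/-- a place over a larger field of constants -/
def dn (k : Type) {N M : Type} [Field k] [Field N] [Field M] [Algebra k M] [Algebra N M]
    [Algebra k N] [IsScalarTower k N M] (w : Place N M) : Place k M where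
  ord := w.ord
  ord_zero := w.ord_zero
  ord_mul := w.ord_mul
  ord_add := w.ord_add
  ord_const := fun {c} hc => by
    rw [IsScalarTower.algebraMap_apply k N M]
    exact w.ord_const ((_root_.map_ne_zero _).2 hc)
  surj := w.surj

theorem dn_ord {k N M : Type} [Field k] [Field N] [Field M] [Algebra k M] [Algebra N M]
    [Algebra k N] [IsScalarTower k N M] (w : Place N M) (f : M) : (dn k w).ord f = w.ord f := rfl

theorem dn_reg {k N M : Type} [Field k] [Field N] [Field M] [Algebra k M] [Algebra N M]
    [Algebra k N] [IsScalarTower k N M] (w : Place N M) (f : M) : (dn k w).Reg f ↔ w.Reg f :=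
  Iff.rfl

end

section

variable {k M : Type} [Field k] [CharZero k] [Field M] [Algebra k M]

/-- **Preservation of places.** -/
theorem pres_place {N : IntermediateField k M} [IsFF N M] (w : Place N M)
    (D : Derivation k M M) (B : Subalgebra k M) (hN : ∀ z ∈ N, z ∈ B)
    (hB : ∀ z ∈ B, w.Reg z) (hD : ∀ z ∈ B, D z ∈ B)
    (hfr : ∀ z : M, ∃ a ∈ B, ∃ b ∈ B, b ≠ 0 ∧ z * b = a) {z : M} (hz : w.Reg z) :
    w.Reg (D z) := by
  open scoped algebraAdjoinAdjoin in
  -- an element of `B` transcendental over `N`
  have hx : ∃ x ∈ B, Transcendental N x := by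
    by_contra hne
    push Not at hne
    obtain ⟨f, hf⟩ := IsFF.exists_transcendental (k := N) (K := M)
    obtain ⟨a, ha, b, hb, hb0, h⟩ := hfr f
    apply hf
    have h1 : IsAlgebraic N a := by
      have := hne a ha
      unfold Transcendental at this
      exact not_not.1 this
    have h2 : IsAlgebraic N b := by
      have := hne b hb
      unfold Transcendental at this
      exact not_not.1 this
    have h3 : f = a * b⁻¹ := by
      rw [← h]
      field_simp
    rw [h3]
    exact h1.mul h2.inv
  obtain ⟨x, hxB, hx⟩ := hx
  have hN0 : CharZero N := charZero_of_injective_algebraMap (algebraMap k N).injective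
  let A := Algebra.adjoin N {x}
  let e := Polynomial.algEquivOfTranscendental N x hx
  have hpid : IsPrincipalIdealRing A := IsPrincipalIdealRing.of_surjective e.toRingEquiv e.surjective
  have hded : IsDedekindDomain A := inferInstance
  have hfin := IsFF.finite hx
  have hchar : CharZero N⟮x⟯ := charZero_of_injective_algebraMap (algebraMap N N⟮x⟯).injective
  have hsep : Algebra.IsSeparable N⟮x⟯ M := inferInstance
  let C := integralClosure A M
  have : IsDedekindDomain C := integralClosure.isDedekindDomain A N⟮x⟯ M
  have : IsFractionRing C M := integralClosure.isFractionRing_of_finite_extension N⟮x⟯ M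
  have hsc : IsScalarTower N C M := by
    refine IsScalarTower.of_algebraMap_eq fun c => ?_
    rw [IsScalarTower.algebraMap_apply N A C, ← IsScalarTower.algebraMap_apply A C M,
      ← IsScalarTower.algebraMap_apply N A M]
  have hAB : ∀ a : A, (a : M) ∈ B := by
    rintro ⟨a, ha⟩
    change a ∈ B
    induction ha using Algebra.adjoin_induction with
    | mem y hy =>
      rw [Set.mem_singleton_iff] at hy
      subst hy
      exact hxB
    | algebraMap r => exact hN _ r.2
    | add y z _ _ hy hz => exact B.add_mem hy hz
    | mul y z _ _ hy hz => exact B.mul_mem hy hz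
  have hint : ∀ c : C, IsIntegral B (c : M) := by
    intro c
    obtain ⟨p, hp, he⟩ := c.2
    let ψ : A →+* B := (algebraMap A M).codRestrict B.toSubring hAB
    refine ⟨p.map ψ, hp.map _, ?_⟩
    rw [Polynomial.eval₂_map]
    exact he
  have hCreg : ∀ c : C, w.Reg (algebraMap C M c) := fun c =>
    w.reg_of_isIntegral (A := B) (fun a => hB _ a.2) (hint c)
  have hCD : ∀ c : C, w.Reg (D (algebraMap C M c)) := fun c => by
    have h1 := pres_int (dn k w) D B (fun z hz => hB z hz) hD hfr (hint c)
    exact h1
  obtain ⟨P, hP⟩ := exists_placeOf_eq (k := N) (L := M) (B := C) w hCreg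
  by_cases hz0 : z = 0
  · rw [hz0, map_zero]
    exact w.reg_zero
  have h1 : P.valuation M z ≤ 1 := by
    rw [← placeOf_nonneg (k := N) P hz0, hP]
    exact (w.reg_iff hz0).1 hz
  obtain ⟨n, d, hnd⟩ := HeightOneSpectrum.exists_primeCompl_mul_eq_of_integer _ z h1
  have hd : ¬ w.red (algebraMap C M d) = 0 := by
    rw [← hP, placeOf_red_eq_zero]
    exact d.2
  rw [w.red_eq_zero_iff (hCreg d)] at hd
  push Not at hd
  obtain ⟨hd0, hd1⟩ := hd
  have hd2 : w.ord (algebraMap C M d) = 0 := le_antisymm hd1 ((w.reg_iff hd0).1 (hCreg d))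
  have h2 : D z = (D (algebraMap C M n) - z * D (algebraMap C M d)) * (algebraMap C M d)⁻¹ := by
    rw [← hnd, Derivation.leibniz, smul_eq_mul, smul_eq_mul]
    field_simp
    ring
  rw [h2]
  refine w.reg_mul ?_ ?_
  · rw [sub_eq_add_neg]
    exact w.reg_add (hCD n) (w.reg_neg (w.reg_mul hz (hCD d)))
  · rw [w.reg_iff (inv_ne_zero hd0), w.ord_inv, hd2]
    simp

end

end Q36.IK
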