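import Pool.Agent.Q36.IK.Fr
import Pool.Agent.Q36.IK.Pl

/-!
The values of pluricanonical forms on the frame.
-/

set_option autoImplicit false
set_option linter.overlappingInstances false
set_option linter.unusedSectionVars false

open Polynomial FF IsDedekindDomain IntermediateField
open Pool.Agent.W603.LV Pool.Agent.Y172 Pool.Agent.W619.TW Pool.Agent.W619.PQ Q36.GV

namespace Q36.IK

section

variable {k M : Type} [Field k] [CharZero k] [IsAlgClosed k] [Field M] [Algebra k M]
  {s : ℕ} {d : Fin s → ℕ} {F : Fin s → IntermediateField k M}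
  [hess : ∀ i, Algebra.EssFiniteType k (F i)]

/-- The factors outside `S` are curves of genus at most one, and the frame consists there of regular
vector fields. -/
def EllOut (F : Fin s → IntermediateField k M) (X : Ix d → Derivation k M M)
    (S : Finset (Fin s)) : Prop :=
  ∀ i, i ∉ S → d i = 1 ∧ IsFF k (F i) ∧ ∃ D : Derivation k (F i) (F i), RegVF D ∧
    ∀ (l : Fin (d i)) (z : F i), X ⟨i, l⟩ (z : M) = (D z : M)

variable {y : ∀ i, Fin (d i) → F i} {X : Ix d → Derivation k M M} {ε : Ix d → M}
  {S : Finset (Fin s)}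

/-- vector fields with coefficients in a subfield preserve the places over it -/
theorem pres_frm (h : Frm F y X ε) (hell : EllOut F X S) (hsup : ⨆ i, F i = ⊤)
    {N : IntermediateField k M} [IsFF N M] (hSN : part F S ≤ N) (w : Place N M)
    (D : Derivation k M M) (τ : Ix d → M) (hτ : ∀ j, τ j ∈ N)
    (hD : ∀ f, D f = ∑ j, τ j * X j f) (hDN : ∀ z ∈ N, D z ∈ N) {z : M} (hz : w.Reg z) :
    w.Reg (D z) := by
  classical
  refine pres_gen w (fun i : {i // i ∉ S} => F i.1) (fun N' h1 h2 => ?_) D hDN
    (fun i z hz hw => ?_) hz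
  · rw [eq_top_iff, ← hsup]
    refine iSup_le fun i => ?_
    by_cases hi : i ∈ S
    · exact (le_part F hi).trans (hSN.trans h1)
    · exact h2 ⟨i, hi⟩
  · obtain ⟨-, hff, D0, hD0, hX⟩ := hell i.1 i.2
    rw [hD]
    refine Subalgebra.sum_mem _ fun j _ => ?_
    by_cases hj : i.1 = j.1
    · obtain ⟨j1, j2⟩ := j
      change i.1 = j1 at hj
      subst hj
      rw [hX j2 ⟨z, hz⟩]
      refine Subalgebra.mul_mem _ (N_regB (hτ _)) (F_regB (i := i) (D0 ⟨z, hz⟩).2 ?_)
      exact reg_pres (F i.1) hD0 (dn k w) ⟨z, hz⟩ hw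
    · rw [h.kill j i.1 hj z hz, mul_zero]
      exact Subalgebra.zero_mem _

theorem ff_of_trdeg {N : IntermediateField k M} [Algebra.EssFiniteType k M] {n : ℕ}
    (hN : Algebra.trdeg k N = n) (hM : Algebra.trdeg k M = (n + 1 : ℕ)) : IsFF N M := by
  refine ⟨Algebra.EssFiniteType.of_comp k N M, ?_⟩
  have h1 := trdeg_add_eq k N (A := M)
  rw [hN, hM] at h1
  push_cast at h1
  rw [add_comm, add_comm (n : Cardinal)] at h1
  exact (Cardinal.add_right_inj_of_lt_aleph0 Cardinal.natCast_lt_aleph0).1 h1

theorem divis_over {N : IntermediateField k M} {n ν : ℕ} (hN : Algebra.trdeg k N = n)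
    (hν : ν = n + 1) (w : Place N M) : IsDivisorial (dn k w) ν := by
  rw [hν]
  exact dn_div hN w

/-- **The values of pluricanonical forms on the frame.** -/
theorem stepA (h : Frm F y X ε) (hell : EllOut F X S) (hd : ∀ i, Algebra.trdeg k (F i) = d i)
    (hM : Algebra.trdeg k M = (∑ i, d i : ℕ)) (hsup : ⨆ i, F i = ⊤)
    {K : Type} [Field K] [Algebra k K] [Algebra K M] [IsScalarTower k K M]
    [Algebra.EssFiniteType k K] {p : ℕ} (hK : Algebra.trdeg k K = p) {z : Fin p → K}
    {Ez : Fin p → Derivation k K K} (hz : IsTranscendenceBasis k z)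
    (hEz : ∀ i j, Ez i (z j) = if i = j then 1 else 0) {m : ℕ}
    {η : (Fin p → Derivation k K K) → K} (hpl : IsPluriForm k K p m η)
    (hη : ∀ v : Place k K, IsDivisorial v p → RegularAt v p η) (I : Fin p → Ix d) :
    algebraMap K M (η Ez) * (Matrix.of fun a b => X (I a) (algebraMap K M (z b))).det ^ m ∈
      part F S := by
  classical
  have hessM : Algebra.EssFiniteType k M := Q36.GV.ess_supW F hsup
  set f := algebraMap K M (η Ez) *
    (Matrix.of fun a b => X (I a) (algebraMap K M (z b))).det ^ m with hf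
  -- the derivatives in the elliptic directions
  have h1 : ∀ j : Ix d, j.1 ∉ S → X j f = 0 := by
    intro j hj
    obtain ⟨hd1, -, -⟩ := hell j.1 hj
    let R : Finset (Fin s) := {j.1}ᶜ
    have hR : Algebra.trdeg k (part F R) = (∑ i ∈ R, d i : ℕ) := part_trdeg F hd hM hsup R
    have hsum : ∑ i, d i = ∑ i ∈ R, d i + 1 := by
      rw [← Finset.sum_add_sum_compl R d]
      congr 1
      rw [show Rᶜ = {j.1} from compl_compl _, Finset.sum_singleton, hd1]
    have hSR : part F S ≤ part F R := by
      refine iSup_le fun i => ?_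
      refine le_part F ?_
      rw [Finset.mem_compl, Finset.mem_singleton]
      intro hi
      exact hj (hi ▸ i.2)
    have hff : IsFF (part F R) M := ff_of_trdeg hR (by rw [hM, hsum])
    have h2 : IsAlgebraic (part F R) f := by
      refine alg_of_reg fun w => ?_
      refine pull_reg (w := dn k w) hK hM hz hEz hpl hη (divis_over hR hsum w)
        (fun a => X (I a)) fun a g hg => ?_
      refine pres_frm h hell hsup hSR w (X (I a)) (Pi.single (I a) 1) (fun j => ?_) (fun g => ?_)
        (h.stabN rfl (I a)) hg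
      · by_cases hja : j = I a
        · rw [hja, Pi.single_eq_same]
          exact one_mem _
        · rw [Pi.single_eq_of_ne hja]
          exact zero_mem _
      · rw [Finset.sum_eq_single (I a)]
        · rw [Pi.single_eq_same, one_mul]
        · intro j _ hja
          rw [Pi.single_eq_of_ne hja, zero_mul]
        · intro hi
          exact absurd (Finset.mem_univ _) hi
    have h3 : f ∈ part F R := part_closed F hd hM hsup R h2
    exact h.killN (S := R) (by simp [R]) f h3
  by_contra hne
  obtain ⟨D, hD1, hD2⟩ := exists_der_ne (M := part F S)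
    (fun x hx => part_closed F hd hM hsup S hx) hne
  rw [h.span D f, Finset.sum_eq_zero] at hD2
  · exact zero_ne_one hD2
  · intro j _
    by_cases hj : j.1 ∈ S
    · rw [hD1 _ (le_part F hj (y j.1 j.2).2), zero_div, zero_mul]
    · rw [h1 j hj, mul_zero]

end

end Q36.IK
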