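import Pool.Agent.Q36.PF.Fm
import Pool.Agent.Y172.Alg
import Mathlib.RingTheory.IntegralClosure.IsIntegral.AlmostIntegral

/-!
Derivations and integral closures (Seidenberg).
-/

set_option autoImplicit false
set_option linter.overlappingInstances false
set_option linter.unusedSectionVars false

open Polynomial FF IsDedekindDomain IntermediateField
open Pool.Agent.W603.LV

namespace Q36.IK

section

variable {k M : Type} [Field k] [CharZero k] [Field M] [Algebra k M]

/-- the commutator with the multiplication by `z` -/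
def dl (z : M) (P : M → M) : M → M := fun x => P (z * x) - z * P x

theorem dl_comp (D : Derivation k M M) (z : M) (P : M → M) (x : M) :
    dl z (fun x => D (P x)) x = D (dl z P x) + D z * P x := by
  unfold dl
  rw [map_sub, Derivation.leibniz, smul_eq_mul, smul_eq_mul]
  ring

theorem dl_iter (D : Derivation k M M) (z : M) (P : M → M) : ∀ (m : ℕ) (x : M),
    (dl z)^[m + 1] (fun x => D (P x)) x =
      D ((dl z)^[m + 1] P x) + (m + 1 : ℕ) * D z * (dl z)^[m] P x
  | 0, x => by
    simp only [zero_add, Function.iterate_one, Function.iterate_zero, id, Nat.cast_one, one_mul]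
    exact dl_comp D z P x
  | m + 1, x => by
    rw [Function.iterate_succ_apply' (dl z) (m + 1)]
    have h1 : (dl z)^[m + 1] (fun x => D (P x)) = fun x =>
        D ((dl z)^[m + 1] P x) + (m + 1 : ℕ) * D z * (dl z)^[m] P x :=
      funext fun x => dl_iter D z P m x
    rw [h1, Function.iterate_succ_apply' (dl z) (m + 1) P]
    have h2 : dl z (fun x => D ((dl z)^[m + 1] P x) + (m + 1 : ℕ) * D z * (dl z)^[m] P x) x =
        dl z (fun x => D ((dl z)^[m + 1] P x)) x + (m + 1 : ℕ) * D z * dl z ((dl z)^[m] P) x := by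
      unfold dl
      ring
    rw [h2, dl_comp, Function.iterate_succ_apply' (dl z) m P]
    push_cast
    ring

theorem dl_high (D : Derivation k M M) (z : M) : ∀ (n m : ℕ) (x : M), n < m →
    (dl z)^[m] (fun x => D^[n] x) x = 0
  | 0, m, x, h => by
    obtain ⟨m, rfl⟩ : ∃ m', m = m' + 1 := ⟨m - 1, by omega⟩
    rw [Function.iterate_succ_apply]
    have h1 : dl z (fun x => D^[0] x) = fun _ => 0 := by
      funext x
      unfold dl
      simp
    rw [h1]
    clear h h1
    induction m generalizing x with
    | zero => rfl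
    | succ m ih =>
      rw [Function.iterate_succ_apply]
      have h2 : dl z (fun _ => (0 : M)) = fun _ => 0 := by
        funext x
        unfold dl
        simp
      rw [h2]
      exact ih x
  | n + 1, m, x, h => by
    obtain ⟨m, rfl⟩ : ∃ m', m = m' + 1 := ⟨m - 1, by omega⟩
    have h1 : (fun x => D^[n + 1] x) = fun x => D ((fun x => D^[n] x) x) := by
      funext x
      exact Function.iterate_succ_apply' _ _ _
    rw [h1, dl_iter, dl_high D z n (m + 1) x (by omega), dl_high D z n m x (by omega)]
    simp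

theorem dl_diag (D : Derivation k M M) (z : M) : ∀ (n : ℕ) (x : M),
    (dl z)^[n] (fun x => D^[n] x) x = (n.factorial : M) * (D z) ^ n * x
  | 0, x => by simp
  | n + 1, x => by
    have h1 : (fun x => D^[n + 1] x) = fun x => D ((fun x => D^[n] x) x) := by
      funext x
      exact Function.iterate_succ_apply' _ _ _
    rw [h1, dl_iter, dl_high D z n (n + 1) x (by omega), dl_diag D z n x, map_zero, zero_add,
      Nat.factorial_succ]
    push_cast
    ring

theorem dl_reg (w : Place k M) {z b : M} (hz : w.Reg z) (P : M → M)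
    (h : ∀ j : ℕ, w.Reg (P (z ^ j * b))) : ∀ n j : ℕ, w.Reg ((dl z)^[n] P (z ^ j * b))
  | 0, j => h j
  | n + 1, j => by
    rw [Function.iterate_succ_apply']
    unfold dl
    have h1 := dl_reg w hz P h n (j + 1)
    rw [show z * (z ^ j * b) = z ^ (j + 1) * b by ring]
    rw [sub_eq_add_neg]
    exact w.reg_add h1 (w.reg_neg (w.reg_mul hz (dl_reg w hz P h n j)))

/-- **Seidenberg's theorem at a place.** -/
theorem pres_z (w : Place k M) (D : Derivation k M M) {z b : M} (hz : w.Reg z) (hb : b ≠ 0)
    (h : ∀ n j : ℕ, w.Reg (D^[n] (z ^ j * b))) : w.Reg (D z) := by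
  by_contra hne
  have h0 : D z ≠ 0 := fun h1 => hne (Or.inl h1)
  have h1 : w.ord (D z) < 0 := by
    by_contra h1
    exact hne (Or.inr (not_lt.1 h1))
  have h2 : ∀ n : ℕ, 0 ≤ (n : ℤ) * w.ord (D z) + w.ord b := by
    intro n
    have h3 := dl_reg w hz (fun x => D^[n] x) (h n) n 0
    rw [dl_diag] at h3
    have hf : (n.factorial : M) ≠ 0 := by
      have h4 : CharZero M := charZero_of_injective_algebraMap (algebraMap k M).injective
      exact_mod_cast n.factorial_ne_zero
    have hf0 : w.ord (n.factorial : M) = 0 := by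
      have h4 := w.ord_const (c := (n.factorial : k)) (by exact_mod_cast n.factorial_ne_zero)
      rwa [map_natCast] at h4
    have h5 : (n.factorial : M) * (D z) ^ n * (z ^ 0 * b) ≠ 0 := by
      rw [pow_zero, one_mul]
      exact mul_ne_zero (mul_ne_zero hf (pow_ne_zero _ h0)) hb
    have h6 := (w.reg_iff h5).1 h3
    rw [pow_zero, one_mul] at h6
    rw [w.ord_mul (mul_ne_zero hf (pow_ne_zero _ h0)) hb, w.ord_mul hf (pow_ne_zero _ h0),
      w.ord_pow, hf0, zero_add] at h6
    exact h6
  have h3 := h2 ((w.ord b).toNat + 1)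
  have h4 : w.ord b ≤ (w.ord b).toNat := Int.self_le_toNat _
  push_cast at h3
  nlinarith

/-- regularity of the values on integral elements -/
theorem pres_int (w : Place k M) (D : Derivation k M M) (B : Subalgebra k M)
    (hB : ∀ z ∈ B, w.Reg z) (hD : ∀ z ∈ B, D z ∈ B)
    (hfr : ∀ z : M, ∃ a ∈ B, ∃ b ∈ B, b ≠ 0 ∧ z * b = a) {z : M} (hz : IsIntegral B z) :
    w.Reg (D z) := by
  have hfrac : IsFractionRing B M := by
    refine IsFractionRing.of_field B M fun z => ?_
    obtain ⟨a, ha, b, hb, hb0, h⟩ := hfr z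
    exact ⟨⟨a, ha⟩, ⟨b, hb⟩, (eq_div_iff hb0).2 h⟩
  obtain ⟨r, hr, hrz⟩ := hz.isAlmostIntegral
  have hr0 : (r : M) ≠ 0 := by
    have := nonZeroDivisors.ne_zero hr
    intro h
    exact this (Subtype.ext h)
  have hzr : w.Reg z := w.reg_of_isIntegral (A := B) (fun a => hB _ a.2) hz
  refine pres_z w D hzr hr0 fun n j => ?_
  have h1 : z ^ j * (r : M) ∈ B := by
    obtain ⟨c, hc⟩ := hrz j
    rw [Algebra.smul_def] at hc
    rw [mul_comm]
    change (algebraMap B M) r * z ^ j ∈ B
    rw [← hc]
    exact c.2
  have h2 : ∀ n : ℕ, ∀ y ∈ B, D^[n] y ∈ B := by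
    intro n
    induction n with
    | zero => exact fun y hy => hy
    | succ n ih =>
      intro y hy
      rw [Function.iterate_succ_apply]
      exact ih _ (hD y hy)
  exact hB _ (h2 n _ h1)

end

end Q36.IK
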