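import Pool.Agent.Q36.IK.Sa
import Pool.Agent.Q36.PF.Np

/-!
The vector fields on a product which are tangent to the fibres of a map to a variety with a
pluricanonical form.
-/

set_option autoImplicit false
set_option linter.overlappingInstances false
set_option linter.unusedSectionVars false

open Polynomial FF IsDedekindDomain IntermediateField
open Pool.Agent.W603.LV Pool.Agent.Y172 Pool.Agent.W619.TW Pool.Agent.W619.PQ Q36.GV

namespace Q36.IK

section

variable {k M : Type} [Field k] [CharZero k] [IsAlgClosed k] [Field M] [Algebra k M]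
  {s : ℕ} {d : Fin s → ℕ} (F : Fin s → IntermediateField k M)
  [hess : ∀ i, Algebra.EssFiniteType k (F i)]

/-- vector fields, with coefficients in the partial product, along the fibres over `K` -/
structure Pd (y : ∀ i, Fin (d i) → F i) (X : Ix d → Derivation k M M) (ε : Ix d → M)
    (S : Finset (Fin s)) (K : Type) [Field K] [Algebra K M] {p : ℕ}
    (I0 : Fin p → Ix d) (P : Ix d → Derivation k M M) (τ : Ix d → Ix d → M) : Prop where
  killK : ∀ j (f : K), P j (algebraMap K M f) = 0
  tau : ∀ j i, τ j i ∈ part F S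
  exp : ∀ j f, P j f = ∑ i, τ j i * X i f
  killT : ∀ j : Ix d, j.1 ∉ S → Kills (P j) (part F S)
  dual : ∀ j j', j ∉ Set.range I0 → j' ∉ Set.range I0 →
    P j (y j'.1 j'.2 : M) = if j = j' then ε j else 0
  uniq : ∀ D : Derivation k M M, (∀ f : K, D (algebraMap K M f) = 0) →
    (∀ j : Ix d, j ∉ Set.range I0 → D (y j.1 j.2 : M) = 0) → D = 0
  inj : Function.Injective I0

variable {F} {y : ∀ i, Fin (d i) → F i} {X : Ix d → Derivation k M M} {ε : Ix d → M}
  {S : Finset (Fin s)}

/-- a nonzero minor -/
theorem minor_frm (h : Frm F y X ε) (hM : Algebra.trdeg k M = (∑ i, d i : ℕ)) {p : ℕ}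
    {t : Fin p → M} (ht : AlgebraicIndependent k t) :
    ∃ I : Fin p → Ix d, (Matrix.of fun a b => X (I a) (t b)).det ≠ 0 := by
  classical
  let e := finSigmaFinEquiv (n := d)
  have hb : IsTranscendenceBasis k fun i : Fin (∑ i, d i) =>
      (y (e.symm i).1 (e.symm i).2 : M) := by
    have h1 := (isTranscendenceBasis_equiv e.symm).2 h.basis
    exact h1
  obtain ⟨r, hr⟩ := Q36.PF.minor_ne hM ht hb
    (E := fun i => (ε (e.symm i))⁻¹ • X (e.symm i)) (fun i j => by
      rw [Derivation.coe_smul, Pi.smul_apply, h.dual, smul_eq_mul]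
      by_cases hij : i = j
      · rw [if_pos (by rw [hij]), if_pos hij, inv_mul_cancel₀ (h.ne _)]
      · rw [if_neg (fun h' => hij (e.symm.injective h')), if_neg hij, mul_zero])
  let I : Fin p → Ix d := fun a => e.symm (r a)
  have h2 : (Matrix.of fun a b => (ε (I a))⁻¹ *
      (Matrix.of fun a b => X (I a) (t b)) a b).det ≠ 0 := hr
  rw [Matrix.det_mul_column] at h2
  exact ⟨I, fun h0 => h2 (by rw [h0, mul_zero])⟩

/-- **Cramer's rule.** -/
theorem cramer_frm {p : ℕ} (Y : Ix d → Fin p → M) (I0 : Fin p → Ix d) (j : Ix d) (b : Fin p) :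
    (Matrix.of fun a b => Y (I0 a) b).det * Y j b =
    ∑ a, Y (I0 a) b * (Matrix.of fun a' b => Y (Function.update I0 a j a') b).det := by
  let A : Matrix (Fin p) (Fin p) M := (Matrix.of fun a b => Y (I0 a) b).transpose
  have h1 := congrFun (Matrix.mulVec_cramer A (Y j)) b
  have h2 : ∀ a, Matrix.cramer A (Y j) a =
      (Matrix.of fun a' b => Y (Function.update I0 a j a') b).det := by
    intro a
    rw [Matrix.cramer_apply]
    have h3 : A.updateCol a (Y j) =
        (Matrix.of fun a' b => Y (Function.update I0 a j a') b).transpose := by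
      ext b' a'
      rw [Matrix.updateCol_apply, Matrix.transpose_apply, Matrix.of_apply]
      by_cases ha : a' = a
      · rw [if_pos ha, ha, Function.update_self]
      · rw [if_neg ha, Function.update_of_ne ha]
        rfl
    rw [h3, Matrix.det_transpose]
  have h4 : A.det = (Matrix.of fun a b => Y (I0 a) b).det := Matrix.det_transpose _
  rw [Pi.smul_apply, h4, smul_eq_mul] at h1
  rw [← h1]
  change ∑ a, A b a * Matrix.cramer A (Y j) a = _
  refine Finset.sum_congr rfl fun a _ => ?_
  rw [h2]
  rfl

open scoped Classical in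
/-- **Existence of the vector fields along the fibres.** -/
theorem exists_pd (h : Frm F y X ε) (hell : EllOut F X S)
    (hd : ∀ i, Algebra.trdeg k (F i) = d i)
    (hM : Algebra.trdeg k M = (∑ i, d i : ℕ)) (hsup : ⨆ i, F i = ⊤)
    {K : Type} [Field K] [Algebra k K] [Algebra K M] [IsScalarTower k K M]
    [Algebra.EssFiniteType k K] {p : ℕ} (hK : Algebra.trdeg k K = p) {z : Fin p → K}
    {Ez : Fin p → Derivation k K K} (hz : IsTranscendenceBasis k z)
    (hEz : ∀ i j, Ez i (z j) = if i = j then 1 else 0) {m : ℕ} (hm : 1 ≤ m)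
    {η : (Fin p → Derivation k K K) → K} (hpl : IsPluriForm k K p m η)
    (hη : ∀ v : Place k K, IsDivisorial v p → RegularAt v p η) (hne : η Ez ≠ 0) :
    ∃ (I0 : Fin p → Ix d) (P : Ix d → Derivation k M M) (τ : Ix d → Ix d → M),
      Pd F y X ε S K I0 P τ := by
  let Y : Ix d → Fin p → M := fun j b => X j (algebraMap K M (z b))
  let Θ : (Fin p → Ix d) → M := fun I => (Matrix.of fun a b => Y (I a) b).det
  let cnt : (Fin p → Ix d) → ℕ := fun I => (Finset.univ.filter fun a => (I a).1 ∉ S).card
  -- a minor with as many elliptic rows as possible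
  have hne0 : (Finset.univ.filter fun I : Fin p → Ix d => Θ I ≠ 0).Nonempty := by
    obtain ⟨I, hI⟩ := minor_frm h hM (t := fun b => algebraMap K M (z b))
      (hz.1.map' (f := IsScalarTower.toAlgHom k K M) (algebraMap K M).injective)
    exact ⟨I, Finset.mem_filter.2 ⟨Finset.mem_univ _, hI⟩⟩
  obtain ⟨I0, hI0, hmax⟩ := Finset.exists_max_image _ cnt hne0
  have hI0 : Θ I0 ≠ 0 := (Finset.mem_filter.1 hI0).2
  have hmax : ∀ I, Θ I ≠ 0 → cnt I ≤ cnt I0 := fun I hI =>
    hmax I (Finset.mem_filter.2 ⟨Finset.mem_univ _, hI⟩)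
  -- the ratios of the minors
  have hc : algebraMap K M (η Ez) ≠ 0 := (_root_.map_ne_zero _).2 hne
  have hrat : ∀ I, Θ I / Θ I0 ∈ part F S := by
    intro I
    have h1 := stepA h hell hd hM hsup hK hz hEz hpl hη I
    have h2 := stepA h hell hd hM hsup hK hz hEz hpl hη I0
    have h3 : (Θ I / Θ I0) ^ m ∈ part F S := by
      have h4 := div_mem h1 h2
      rw [mul_div_mul_left _ _ hc, ← div_pow] at h4
      exact h4
    refine part_closed F hd hM hsup S ?_
    refine IsAlgebraic.of_pow (Nat.pos_of_ne_zero (by omega)) (?_ : IsAlgebraic (part F S) ((Θ I / Θ I0) ^ m))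
    exact isAlgebraic_algebraMap (⟨_, h3⟩ : part F S)
  let R : Fin p → Ix d → M := fun a j => Θ (Function.update I0 a j) / Θ I0
  have hR0 : ∀ a (j : Ix d), j.1 ∉ S → (I0 a).1 ∈ S → R a j = 0 := by
    intro a j hj ha
    by_contra hne
    have h1 : Θ (Function.update I0 a j) ≠ 0 := fun h0 => hne (by
      change Θ (Function.update I0 a j) / Θ I0 = 0
      rw [h0, zero_div])
    have h2 := hmax _ h1
    have h3 : (Finset.univ.filter fun a' => (Function.update I0 a j a').1 ∉ S) =
        insert a (Finset.univ.filter fun a' => (I0 a').1 ∉ S) := by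
      ext a'
      rw [Finset.mem_insert, Finset.mem_filter, Finset.mem_filter]
      by_cases haa : a' = a
      · subst haa
        rw [Function.update_self]
        simp [hj]
      · rw [Function.update_of_ne haa]
        simp [haa]
    have h4 : cnt (Function.update I0 a j) = cnt I0 + 1 := by
      change (Finset.univ.filter fun a' => (Function.update I0 a j a').1 ∉ S).card = _
      rw [h3, Finset.card_insert_of_notMem]
      rw [Finset.mem_filter]
      exact fun h5 => h5.2 ha
    omega
  let τ : Ix d → Ix d → M := fun j i =>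
    (if i = j then 1 else 0) - ∑ a, if I0 a = i then R a j else 0
  have hτg : ∀ j (g : Ix d → M), ∑ i, τ j i * g i = g j - ∑ a, R a j * g (I0 a) := by
    intro j g
    simp only [τ, sub_mul, Finset.sum_sub_distrib, Finset.sum_mul]
    congr 1
    · rw [Finset.sum_eq_single j]
      · rw [if_pos rfl, one_mul]
      · intro i _ hi
        rw [if_neg hi, zero_mul]
      · intro hj
        exact absurd (Finset.mem_univ j) hj
    · rw [Finset.sum_comm]
      refine Finset.sum_congr rfl fun a _ => ?_
      rw [Finset.sum_eq_single (I0 a)]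
      · rw [if_pos rfl]
      · intro i _ hi
        rw [if_neg fun h' => hi h'.symm, zero_mul]
      · intro hj
        exact absurd (Finset.mem_univ _) hj
  let P : Ix d → Derivation k M M := fun j => ∑ i, τ j i • X i
  have hexp : ∀ j f, P j f = ∑ i, τ j i * X i f := by
    intro j f
    change (∑ i, τ j i • X i) f = _
    rw [sum_der]
    rfl
  refine ⟨I0, P, τ, ⟨?_, ?_, hexp, ?_, ?_, ?_, ?_⟩⟩
  · intro j f
    have h1 := der_zero ((P j).compAlgebraMap K) z hz (fun b => by
      change P j (algebraMap K M (z b)) = 0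
      rw [hexp, hτg j fun i => X i (algebraMap K M (z b)), sub_eq_zero]
      have h2 := cramer_frm Y I0 j b
      have h3 : X j (algebraMap K M (z b)) = Θ I0 * Y j b / Θ I0 := by
        rw [mul_div_cancel_left₀ _ hI0]
      rw [h3]
      change (Matrix.of fun a b => Y (I0 a) b).det * Y j b / Θ I0 = _
      rw [h2, Finset.sum_div]
      refine Finset.sum_congr rfl fun a _ => ?_
      change Y (I0 a) b * Θ (Function.update I0 a j) / Θ I0 =
        Θ (Function.update I0 a j) / Θ I0 * Y (I0 a) b
      ring) f
    exact h1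
  · intro j i
    refine sub_mem ?_ (sum_mem fun a _ => ?_)
    · by_cases hij : i = j
      · rw [if_pos hij]
        exact one_mem _
      · rw [if_neg hij]
        exact zero_mem _
    · by_cases hij : I0 a = i
      · rw [if_pos hij]
        exact hrat _
      · rw [if_neg hij]
        exact zero_mem _
  · intro j hj f hf
    rw [hexp, hτg j fun i => X i f, h.killN hj f hf, zero_sub, neg_eq_zero]
    refine Finset.sum_eq_zero fun a _ => ?_
    by_cases ha : (I0 a).1 ∈ S
    · rw [hR0 a j hj ha, zero_mul]
    · rw [h.killN ha f hf, mul_zero]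
  · intro j j' hj hj'
    rw [hexp, hτg j fun i => X i (y j'.1 j'.2 : M), h.dual, Finset.sum_eq_zero, sub_zero]
    intro a _
    rw [h.dual, if_neg, mul_zero]
    rintro rfl
    exact hj' ⟨a, rfl⟩
  · intro D hDK hDy
    have h1 : ∀ i : Ix d, i ∉ Set.range I0 → D (y i.1 i.2 : M) / ε i = 0 := fun i hi => by
      rw [hDy i hi, zero_div]
    have h0 : ∀ a a', I0 a = I0 a' → a = a' := by
      intro a a' haa
      by_contra hne
      exact hI0 (Matrix.det_zero_of_row_eq hne (by
        funext b
        change Y (I0 a) b = Y (I0 a') b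
        rw [haa]))
    have hsum : ∀ f, D f = ∑ a, (D (y (I0 a).1 (I0 a).2 : M) / ε (I0 a)) * X (I0 a) f := by
      intro f
      rw [h.span D f]
      rw [← Finset.sum_image (f := fun i => (D (y i.1 i.2 : M) / ε i) * X i f)
        (s := Finset.univ) (g := I0) (fun a _ a' _ haa => h0 a a' haa)]
      symm
      refine Finset.sum_subset (Finset.subset_univ _) fun i _ hi => ?_
      rw [h1 i, zero_mul]
      rintro ⟨a, rfl⟩
      exact hi (Finset.mem_image_of_mem _ (Finset.mem_univ a))
    have h2 : (fun a => D (y (I0 a).1 (I0 a).2 : M) / ε (I0 a)) = 0 := by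
      refine Matrix.eq_zero_of_vecMul_eq_zero (M := Matrix.of fun a b => Y (I0 a) b) hI0 ?_
      funext b
      have h3 := hsum (algebraMap K M (z b))
      rw [hDK] at h3
      exact h3.symm
    ext f
    rw [hsum f, Derivation.coe_zero, Pi.zero_apply]
    refine Finset.sum_eq_zero fun a _ => ?_
    rw [congrFun h2 a, Pi.zero_apply, zero_mul]
  · intro a a' haa
    by_contra hne
    exact hI0 (Matrix.det_zero_of_row_eq hne (by
      funext b
      change Y (I0 a) b = Y (I0 a') b
      rw [haa]))

end

end Q36.IK
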