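import Pool.Agent.Q36.IK.Sc

/-!
The values of relative pluricanonical forms on the vector fields along the fibres.
-/

set_option autoImplicit false
set_option linter.overlappingInstances false
set_option linter.unusedSectionVars false

open Polynomial FF IsDedekindDomain IntermediateField
open Pool.Agent.W603.LV Pool.Agent.Y172 Pool.Agent.W619.TW Pool.Agent.W619.PQ Q36.GV

namespace Q36.IK

section

/-- a vector field which vanishes on `K` is linear over `K` -/
def derK {k M : Type} [Field k] [Field M] [Algebra k M] (K : Type) [Field K] [Algebra K M]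
    (D : Derivation k M M) (h : ∀ f : K, D (algebraMap K M f) = 0) : Derivation K M M :=
  Derivation.mk'
    { toFun := fun x => D x
      map_add' := fun x y => map_add D x y
      map_smul' := fun c x => by
        rw [Algebra.smul_def, Derivation.leibniz, h c, smul_zero, add_zero, smul_eq_mul,
          RingHom.id_apply, Algebra.smul_def] }
    fun a b => D.leibniz a b

theorem derK_apply {k M : Type} [Field k] [Field M] [Algebra k M] {K : Type} [Field K]
    [Algebra K M] (D : Derivation k M M) (h : ∀ f : K, D (algebraMap K M f) = 0) (x : M) :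
    derK K D h x = D x := rfl

end

section

variable {k M : Type} [Field k] [CharZero k] [IsAlgClosed k] [Field M] [Algebra k M]
  {s : ℕ} {d : Fin s → ℕ} {F : Fin s → IntermediateField k M}
  [hess : ∀ i, Algebra.EssFiniteType k (F i)]
  {y : ∀ i, Fin (d i) → F i} {X : Ix d → Derivation k M M} {ε : Ix d → M}
  {S : Finset (Fin s)} {K : Type} [Field K] [Algebra k K] [Algebra K M] [IsScalarTower k K M]
  {p : ℕ} {I0 : Fin p → Ix d} {P : Ix d → Derivation k M M} {τ : Ix d → Ix d → M}

/-- the generators of the field of the fibres of dimension one -/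
def genN (F : Fin s → IntermediateField k M) (S : Finset (Fin s)) (K : Type) [Field K]
    [Algebra K M] (I0 : Fin p → Ix d) (j0 : Ix d) : Set M :=
  Set.range (algebraMap K M) ∪ (part F S : Set M) ∪
    ⋃ j : {j : Ix d // j ∉ Set.range I0 ∧ j.1 ∉ S ∧ j ≠ j0}, (F j.1.1 : Set M)

theorem ix_eq (hell : EllOut F X S) {i j : Ix d} (hj : j.1 ∉ S) (h : i.1 = j.1) : i = j := by
  obtain ⟨h1, -, -⟩ := hell j.1 hj
  obtain ⟨i1, i2⟩ := i
  obtain ⟨j1, j2⟩ := j
  change i1 = j1 at h
  subst h
  have : i2 = j2 := by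
    apply Fin.ext
    have h2 := i2.2
    have h3 := j2.2
    change d i1 = 1 at h1
    omega
  rw [this]

theorem Pd.tau_zero (h : Frm F y X ε) (hp : Pd F y X ε S K I0 P τ) {j i : Ix d}
    (hj : j ∉ Set.range I0) (hi : i ∉ Set.range I0) (hij : j ≠ i) : τ j i = 0 := by
  have h1 := h.coef (hp.exp j) i
  rw [hp.dual j i hj hi, if_neg hij] at h1
  exact (mul_eq_zero.1 h1.symm).resolve_right (h.ne i)

/-- the vector field `P j0` kills the field -/
theorem Pd.killN (h : Frm F y X ε) (hell : EllOut F X S) (hp : Pd F y X ε S K I0 P τ)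
    {j0 : Ix d} (hj0 : j0 ∉ Set.range I0) (hj1 : j0.1 ∉ S) :
    Kills (P j0) (acl k (genN F S K I0 j0)) := by
  refine kills_acl fun z hz => ?_
  rcases hz with (⟨f, rfl⟩ | hz) | hz
  · exact hp.killK j0 f
  · exact hp.killT j0 hj1 z hz
  · obtain ⟨⟨j, h1, h2, h3⟩, hz⟩ := Set.mem_iUnion.1 hz
    rw [hp.exp]
    refine Finset.sum_eq_zero fun i _ => ?_
    by_cases hij : i.1 = j.1
    · rw [ix_eq hell h2 hij, hp.tau_zero h hj0 h1 (Ne.symm h3), zero_mul]
    · rw [h.kill i j.1 (Ne.symm hij) z hz, mul_zero]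

/-- all the vector fields preserve the field -/
theorem Pd.stabN (h : Frm F y X ε) (hp : Pd F y X ε S K I0 P τ) (j0 j : Ix d) :
    ∀ z ∈ acl k (genN F S K I0 j0), P j z ∈ acl k (genN F S K I0 j0) := by
  have hT : ∀ z ∈ part F S, z ∈ acl k (genN F S K I0 j0) := fun z hz =>
    subset_acl _ (Or.inl (Or.inr hz))
  refine stab_acl fun z hz => ?_
  rcases hz with (⟨f, rfl⟩ | hz) | hz
  · rw [hp.killK j f]
    exact zero_mem _
  · rw [hp.exp]
    exact sum_mem fun i _ => mul_mem (hT _ (hp.tau j i)) (hT _ (h.stabN rfl i z hz))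
  · obtain ⟨j', hz⟩ := Set.mem_iUnion.1 hz
    rw [hp.exp]
    refine sum_mem fun i _ => mul_mem (hT _ (hp.tau j i)) ?_
    by_cases hij : j'.1.1 = i.1
    · refine subset_acl _ (Or.inr (Set.mem_iUnion.2 ⟨j', ?_⟩))
      have h1 := h.stab i z (by rw [← hij]; exact hz)
      rw [← hij] at h1
      exact h1
    · rw [h.kill i j'.1.1 hij z hz]
      exact zero_mem _

theorem Pd.isFF (h : Frm F y X ε) (hell : EllOut F X S) (hp : Pd F y X ε S K I0 P τ)
    [Algebra.EssFiniteType k M] {j0 : Ix d} (hj0 : j0 ∉ Set.range I0) (hj1 : j0.1 ∉ S) :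
    IsFF (acl k (genN F S K I0 j0)) M := by
  refine ⟨Algebra.EssFiniteType.of_comp k _ M, ?_⟩
  have h1 : AlgebraicIndependent (acl k (genN F S K I0 j0))
      (fun _ : Unit => (y j0.1 j0.2 : M)) := by
    rw [algebraicIndependent_unique_type_iff]
    intro hal
    have h2 := kills_alg (hp.killN h hell hj0 hj1) hal
    rw [hp.dual j0 j0 hj0 hj0, if_pos rfl] at h2
    exact h.ne j0 h2
  have h2 := basis_of_kill h1 fun D hD hD' => hp.uniq D
    (fun f => hD _ (subset_acl _ (Or.inl (Or.inl ⟨f, rfl⟩)))) fun j hj => by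
    by_cases hjj : j = j0
    · rw [hjj]
      exact hD' ()
    · by_cases hjS : j.1 ∈ S
      · exact hD _ (subset_acl _ (Or.inl (Or.inr (le_part F hjS (y j.1 j.2).2))))
      · exact hD _ (subset_acl _ (Or.inr (Set.mem_iUnion.2 ⟨⟨j, hj, hjS, hjj⟩, (y j.1 j.2).2⟩)))
  have h3 := h2.cardinalMk_eq_trdeg
  rw [← h3]
  simp

omit [CharZero k] [IsAlgClosed k] hess in
/-- the values of relative pluricanonical forms on vector fields which preserve the places -/
theorem stepB0 [CharZero k] (N : IntermediateField k M) [hff : IsFF N M]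
    (hKN : ∀ f : K, algebraMap K M f ∈ N)
    {L : Type} [Field L] [Algebra K L] [Algebra L M] [IsScalarTower K L M]
    [Algebra.EssFiniteType K L] {q : ℕ} (hL : Algebra.trdeg K L = q)
    (hKM : Algebra.trdeg K M = q) {u : Fin q → L}
    {Eu : Fin q → Derivation K L L} (hu : IsTranscendenceBasis K u)
    (hEu : ∀ i j, Eu i (u j) = if i = j then 1 else 0) {m : ℕ}
    {ω : (Fin q → Derivation K L L) → L} (hpl : IsPluriForm K L q m ω)
    (hω : ∀ v : Place K L, IsDivisorial v q → RegularAt v q ω) (G : Fin q → Derivation k M M)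
    (hGK : ∀ a (f : K), G a (algebraMap K M f) = 0)
    (hGp : ∀ a (w : Place N M) (z : M), w.Reg z → w.Reg (G a z)) :
    IsAlgebraic N (algebraMap L M (ω Eu) *
      (Matrix.of fun a b => G a (algebraMap L M (u b))).det ^ m) := by
  classical
  let _ : Algebra K N := ((algebraMap K M).codRestrict N hKN).toAlgebra
  have hsc : IsScalarTower K N M := IsScalarTower.of_algebraMap_eq fun _ => rfl
  have hK0 : CharZero K := charZero_of_injective_algebraMap (algebraMap k K).injective
  have hN0 : CharZero N := charZero_of_injective_algebraMap (algebraMap k N).injective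
  have htr := trdeg_add_eq K N (A := M)
  rw [hff.trdeg, hKM] at htr
  obtain ⟨r, hr⟩ : ∃ r : ℕ, Algebra.trdeg K N = r := by
    have h1 : Algebra.trdeg K N < Cardinal.aleph0 := by
      refine lt_of_le_of_lt ?_ (Cardinal.natCast_lt_aleph0 (n := q))
      rw [← htr]
      exact le_self_add
    exact Cardinal.lt_aleph0.1 h1
  rw [hr] at htr
  have hq : r + 1 = q := by exact_mod_cast htr
  refine alg_of_reg fun w => ?_
  have hdiv : IsDivisorial (dn K w) q := by
    rw [← hq]
    exact dn_div hr w
  exact pull_reg (k := K) (K := L) (N := M) (w := dn K w) hL hKM hu hEu hpl hω hdiv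
    (fun a => derK K (G a) (hGK a)) fun a g hg => hGp a w g hg

/-- **The derivatives of the values of relative pluricanonical forms.** -/
theorem stepB (h : Frm F y X ε) (hell : EllOut F X S) (hp : Pd F y X ε S K I0 P τ)
    (hsup : ⨆ i, F i = ⊤) [Algebra.EssFiniteType k M]
    {L : Type} [Field L] [Algebra K L] [Algebra L M] [IsScalarTower K L M]
    [Algebra.EssFiniteType K L] {q : ℕ} (hL : Algebra.trdeg K L = q)
    (hKM : Algebra.trdeg K M = q) {u : Fin q → L}
    {Eu : Fin q → Derivation K L L} (hu : IsTranscendenceBasis K u)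
    (hEu : ∀ i j, Eu i (u j) = if i = j then 1 else 0) {m : ℕ}
    {ω : (Fin q → Derivation K L L) → L} (hpl : IsPluriForm K L q m ω)
    (hω : ∀ v : Place K L, IsDivisorial v q → RegularAt v q ω) (e : Fin q → Ix d)
    {j0 : Ix d} (hj0 : j0 ∉ Set.range I0) (hj1 : j0.1 ∉ S) :
    P j0 (algebraMap L M (ω Eu) *
      (Matrix.of fun a b => P (e a) (algebraMap L M (u b))).det ^ m) = 0 := by
  let N := acl k (genN F S K I0 j0)
  have hff : IsFF N M := hp.isFF h hell hj0 hj1
  have hKN : ∀ f : K, algebraMap K M f ∈ N := fun f =>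
    subset_acl _ (Or.inl (Or.inl ⟨f, rfl⟩))
  have hTN : part F S ≤ N := fun z hz => subset_acl _ (Or.inl (Or.inr hz))
  have h1 := stepB0 N hKN hL hKM hu hEu hpl hω (fun a => P (e a)) (fun a => hp.killK (e a))
    fun a w z hz => pres_frm h hell hsup hTN w (P (e a)) (τ (e a)) (fun j => hTN (hp.tau _ j))
      (hp.exp (e a)) (hp.stabN h j0 (e a)) hz
  have h2 := acl_closed (k := k) (genN F S K I0 j0) _ h1
  exact hp.killN h hell hj0 hj1 _ h2

end

end Q36.IK
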