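import Pool.Agent.Q36.IK.Sd
import Pool.Agent.W904.PG.T2

/-!
The count of transcendence degrees.
-/

set_option autoImplicit false
set_option linter.overlappingInstances false
set_option linter.unusedSectionVars false

open Polynomial FF IsDedekindDomain IntermediateField
open Pool.Agent.W603.LV Pool.Agent.Y172 Pool.Agent.W619.TW Pool.Agent.W619.PQ Q36.GV

namespace Q36.IK

section

variable {k M : Type} [Field k] [CharZero k] [Field M] [Algebra k M]

theorem acl_eq (S : Set M) : Pool.Agent.W904.PG.acl k S = acl k S := by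
  open scoped algebraAdjoinAdjoin in
  ext x
  rw [mem_acl, Pool.Agent.W904.PG.mem_acl]
  exact IsFractionRing.isAlgebraic_iff (Algebra.adjoin k S) (IntermediateField.adjoin k S) M

theorem acl_basis {K : Type} [Field K] [Algebra k K] [Algebra K M] [IsScalarTower k K M]
    {ι : Type} {y : ι → K} (hy : IsTranscendenceBasis k y) (f : K) :
    algebraMap K M f ∈ acl k (Set.range fun i => algebraMap K M (y i)) := by
  let φ := IsScalarTower.toAlgHom k K M
  let e : K ≃ₐ[k] φ.fieldRange := AlgEquiv.ofInjectiveField φ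
  have h1 : IsTranscendenceBasis k (e ∘ y) := e.isTranscendenceBasis hy
  have h2 := Pool.Agent.W904.PG.le_acl_of_basis φ.fieldRange (e ∘ y) h1
  rw [acl_eq] at h2
  exact h2 (show algebraMap K M f ∈ φ.fieldRange from ⟨f, rfl⟩)

/-- **The count.** -/
theorem count {T : IntermediateField k M} {h : ℕ} (hT : Algebra.trdeg k T = h)
    {K : Type} [Field K] [Algebra k K] [Algebra K M] [IsScalarTower k K M] {p : ℕ}
    (hK : Algebra.trdeg k K = p) {v : ℕ} {g : Fin v → K} (hg : AlgebraicIndependent k g)
    (hgT : ∀ l, algebraMap K M (g l) ∈ T) {u : ℕ} {r : Fin u → M}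
    (hr : AlgebraicIndependent K r)
    (hrK : ∀ l, r l ∈ acl k (Set.range (algebraMap K M) ∪ (T : Set M))) : u + v ≤ h := by
  classical
  let N := acl k (Set.range (algebraMap K M) ∪ (T : Set M))
  have hKN : ∀ f : K, algebraMap K M f ∈ N := fun f => subset_acl _ (Or.inl ⟨f, rfl⟩)
  let _ : Algebra K N := ((algebraMap K M).codRestrict N hKN).toAlgebra
  have hsc : IsScalarTower K N M := IsScalarTower.of_algebraMap_eq fun _ => rfl
  have hsc' : IsScalarTower k K N := IsScalarTower.of_algebraMap_eq fun c => by
    apply Subtype.ext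
    change algebraMap k M c = algebraMap K M (algebraMap k K c)
    rw [← IsScalarTower.algebraMap_apply]
  -- the lower bound
  have h1 : (u : Cardinal) ≤ Algebra.trdeg K N := by
    let r' : Fin u → N := fun l => ⟨r l, hrK l⟩
    have h2 : AlgebraicIndependent K r' :=
      AlgebraicIndependent.of_comp (IsScalarTower.toAlgHom K N M) hr
    have h3 := h2.lift_cardinalMk_le_trdeg
    simpa using h3
  have h2 : ((p + u : ℕ) : Cardinal) ≤ Algebra.trdeg k N := by
    rw [← trdeg_add_eq k K (A := N), hK]
    push_cast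
    gcongr
  -- the upper bound
  obtain ⟨t, -, ht, -⟩ := exists_crd hT
  obtain ⟨y, hy, g', hg', hyg⟩ := Q36.GV.extend_basis hK hg
  let S1 : Set M := Set.range fun i => (t i : M)
  let S2 : Set M := Set.range fun b : {b // b ∉ Set.range g'} => algebraMap K M (y b.1)
  have hTS : (T : Set M) ⊆ acl k (S1 ∪ S2) := by
    intro z hz
    have h3 := Pool.Agent.W904.PG.le_acl_of_basis T t ht
    rw [acl_eq] at h3
    exact acl_le (acl_closed _) (fun x hx => subset_acl _ (Or.inl hx)) (h3 hz)
  have hKS : Set.range (algebraMap K M) ⊆ acl k (S1 ∪ S2) := by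
    rintro _ ⟨f, rfl⟩
    refine acl_le (acl_closed _) ?_ (acl_basis hy f)
    rintro _ ⟨b, rfl⟩
    by_cases hb : b ∈ Set.range g'
    · obtain ⟨l, rfl⟩ := hb
      change algebraMap K M (y (g' l)) ∈ _
      rw [hyg]
      exact hTS (hgT l)
    · exact subset_acl _ (Or.inr ⟨⟨b, hb⟩, rfl⟩)
  have hN : N ≤ acl k (S1 ∪ S2) := acl_le (acl_closed _) (Set.union_subset hKS hTS)
  have h3 : Algebra.trdeg k N ≤ ((h + (p - v) : ℕ) : Cardinal) := by
    have h4 := Pool.Agent.W904.PG.trdeg_le_acl (S1 ∪ S2) N (by rw [acl_eq]; exact hN)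
    refine h4.trans ((Cardinal.mk_union_le _ _).trans ?_)
    push_cast
    refine add_le_add ?_ ?_
    · have h5 := Cardinal.mk_range_le (f := fun i => (t i : M))
      simpa using h5
    · have h5 := Cardinal.mk_range_le
        (f := fun b : {b // b ∉ Set.range g'} => algebraMap K M (y b.1))
      refine h5.trans ?_
      rw [Cardinal.mk_fintype, Fintype.card_subtype_compl, Fintype.card_fin,
        Set.card_range_of_injective hg', Fintype.card_fin]
  have hv : v ≤ p := by
    have h5 := Fintype.card_le_of_injective g' hg'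
    simpa using h5
  have h6 : p + u ≤ h + (p - v) := by exact_mod_cast h2.trans h3
  omega

end

end Q36.IK
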