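import Pool.Agent.Q36.IK.Se

/-!
Iitaka's inequality: the upper bound.
-/

set_option autoImplicit false
set_option linter.overlappingInstances false
set_option linter.unusedSectionVars false

open Polynomial FF IsDedekindDomain IntermediateField
open Pool.Agent.W603.LV Pool.Agent.Y172 Pool.Agent.W619.TW Pool.Agent.W619.PQ Q36.GV Q36.PT

namespace Q36.IK

section

variable {k M : Type} [Field k] [CharZero k] [IsAlgClosed k] [Field M] [Algebra k M]
  {s : ℕ} {d : Fin s → ℕ} {F : Fin s → IntermediateField k M}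
  [hess : ∀ i, Algebra.EssFiniteType k (F i)]
  {y : ∀ i, Fin (d i) → F i} {X : Ix d → Derivation k M M} {ε : Ix d → M}
  {S : Finset (Fin s)} {K : Type} [Field K] [Algebra k K] [Algebra K M] [IsScalarTower k K M]
  {p : ℕ} {I0 : Fin p → Ix d} {P : Ix d → Derivation k M M} {τ : Ix d → Ix d → M}

open scoped Classical in
/-- a vector field which kills `K` and the partial product -/
theorem Pd.span (h : Frm F y X ε) (hp : Pd F y X ε S K I0 P τ) (D : Derivation k M M)
    (hDK : ∀ f : K, D (algebraMap K M f) = 0) (hDT : Kills D (part F S)) (f : M) :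
    D f = ∑ j ∈ Finset.univ.filter (fun j : Ix d => j ∉ Set.range I0 ∧ j.1 ∉ S),
      (D (y j.1 j.2 : M) / ε j) * P j f := by
  let J := Finset.univ.filter (fun j : Ix d => j ∉ Set.range I0 ∧ j.1 ∉ S)
  have hJ : ∀ j, j ∈ J ↔ j ∉ Set.range I0 ∧ j.1 ∉ S := fun j => by simp [J]
  have h1 : D - ∑ j ∈ J, (D (y j.1 j.2 : M) / ε j) • P j = 0 := by
    refine hp.uniq _ (fun f => ?_) fun j hj => ?_
    · rw [Derivation.coe_sub, Pi.sub_apply, hDK, sum_der, Finset.sum_eq_zero, sub_zero]
      intro i _
      rw [Derivation.coe_smul, Pi.smul_apply, hp.killK, smul_zero]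
    · rw [Derivation.coe_sub, Pi.sub_apply, sum_der, sub_eq_zero]
      by_cases hjS : j.1 ∈ S
      · rw [hDT _ (le_part F hjS (y j.1 j.2).2), Finset.sum_eq_zero]
        intro i hi
        rw [Derivation.coe_smul, Pi.smul_apply,
          hp.killT i ((hJ i).1 hi).2 _ (le_part F hjS (y j.1 j.2).2), smul_zero]
      · rw [Finset.sum_eq_single j]
        · rw [Derivation.coe_smul, Pi.smul_apply, hp.dual j j hj hj, if_pos rfl, smul_eq_mul,
            div_mul_cancel₀ _ (h.ne j)]
        · intro i hi hij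
          rw [Derivation.coe_smul, Pi.smul_apply, hp.dual i j ((hJ i).1 hi).1 hj, if_neg hij,
            smul_zero]
        · intro hj'
          exact absurd ((hJ j).2 ⟨hj, hjS⟩) hj'
  have h2 := congrArg (fun E : Derivation k M M => E f) h1
  simp only [Derivation.coe_sub, Pi.sub_apply, Derivation.coe_zero, Pi.zero_apply] at h2
  rw [sub_eq_zero, sum_der] at h2
  rw [h2]
  rfl

/-- the determinant of the vector fields along the fibres -/
theorem Pd.det_ne (h : Frm F y X ε) (hp : Pd F y X ε S K I0 P τ)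
    {L : Type} [Field L] [Algebra K L] [Algebra L M] [IsScalarTower K L M]
    [Algebra.IsAlgebraic L M] {q : ℕ} {u : Fin q → L} (hu : IsTranscendenceBasis K u)
    (e : Fin q → Ix d) (he : ∀ a, e a ∉ Set.range I0) (hei : Function.Injective e) :
    (Matrix.of fun a b => P (e a) (algebraMap L M (u b))).det ≠ 0 := by
  classical
  have hK0 : CharZero K := charZero_of_injective_algebraMap (algebraMap k K).injective
  intro h0
  obtain ⟨c, hc, h1⟩ := Matrix.exists_vecMul_eq_zero_iff.2 h0
  apply hc
  let D : Derivation k M M := ∑ a, c a • P (e a)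
  have hD : ∀ f, D f = ∑ a, c a * P (e a) f := by
    intro f
    change (∑ a, c a • P (e a)) f = _
    rw [sum_der]
    rfl
  have hDK : ∀ f : K, D (algebraMap K M f) = 0 := by
    intro f
    rw [hD]
    exact Finset.sum_eq_zero fun a _ => by rw [hp.killK, mul_zero]
  have huM : IsTranscendenceBasis K (fun b => algebraMap L M (u b)) := hu.algebraMap_comp
  have h2 := der_zero (derK K D hDK) _ huM (fun b => by
    rw [derK_apply, hD]
    exact congrFun h1 b)
  funext a
  have h3 := h2 (y (e a).1 (e a).2 : M)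
  rw [derK_apply, hD, Finset.sum_eq_single a] at h3
  · rw [hp.dual _ _ (he a) (he a), if_pos rfl] at h3
    exact (mul_eq_zero.1 h3).resolve_right (h.ne _)
  · intro b _ hb
    rw [hp.dual _ _ (he b) (he a), if_neg fun h' => hb (hei h'), mul_zero]
  · intro ha
    exact absurd (Finset.mem_univ a) ha

/-- **The quotients of relative pluricanonical forms.** -/
theorem ratioB (h : Frm F y X ε) (hell : EllOut F X S) (hp : Pd F y X ε S K I0 P τ)
    (hsup : ⨆ i, F i = ⊤) [Algebra.EssFiniteType k M]
    {L : Type} [Field L] [Algebra K L] [Algebra L M] [IsScalarTower K L M]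
    [Algebra.IsAlgebraic L M]
    [Algebra.EssFiniteType K L] {q : ℕ} (hL : Algebra.trdeg K L = q)
    (hKM : Algebra.trdeg K M = q) {u : Fin q → L}
    {Eu : Fin q → Derivation K L L} (hu : IsTranscendenceBasis K u)
    (hEu : ∀ i j, Eu i (u j) = if i = j then 1 else 0) {m : ℕ}
    {ω ω' : (Fin q → Derivation K L L) → L} (hpl : IsPluriForm K L q m ω)
    (hω : ∀ v : Place K L, IsDivisorial v q → RegularAt v q ω)
    (hpl' : IsPluriForm K L q m ω')
    (hω' : ∀ v : Place K L, IsDivisorial v q → RegularAt v q ω') (hne : ω Eu ≠ 0)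
    (e : Fin q → Ix d) (he : ∀ a, e a ∉ Set.range I0) (hei : Function.Injective e) :
    algebraMap L M (ω' Eu / ω Eu) ∈
      acl k (Set.range (algebraMap K M) ∪ (part F S : Set M)) := by
  classical
  by_contra hcon
  obtain ⟨D, hD1, hD2⟩ := exists_der_ne (acl_closed _) hcon
  have hDK : ∀ f : K, D (algebraMap K M f) = 0 := fun f =>
    hD1 _ (subset_acl _ (Or.inl ⟨f, rfl⟩))
  have hDT : Kills D (part F S) := fun z hz => hD1 _ (subset_acl _ (Or.inr hz))
  have hdet := hp.det_ne h hu e he hei
  set Δ := (Matrix.of fun a b => P (e a) (algebraMap L M (u b))).det ^ m with hΔ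
  have hΔ0 : Δ ≠ 0 := pow_ne_zero _ hdet
  have key : ∀ ω : (Fin q → Derivation K L L) → L, IsPluriForm K L q m ω →
      (∀ v : Place K L, IsDivisorial v q → RegularAt v q ω) →
      D (algebraMap L M (ω Eu) * Δ) = 0 := by
    intro ω h1 h2
    rw [hp.span h D hDK hDT]
    refine Finset.sum_eq_zero fun j hj => ?_
    obtain ⟨h3, h4⟩ := (Finset.mem_filter.1 hj).2
    rw [stepB h hell hp hsup hL hKM hu hEu h1 h2 e h3 h4, mul_zero]
  have h1 := key ω hpl hω
  have h2 := key ω' hpl' hω'
  have h3 : algebraMap L M (ω Eu) ≠ 0 := (_root_.map_ne_zero _).2 hne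
  have h4 : algebraMap L M (ω' Eu) * Δ =
      algebraMap L M (ω' Eu / ω Eu) * (algebraMap L M (ω Eu) * Δ) := by
    rw [map_div₀]
    field_simp
  rw [h4, Derivation.leibniz, h1, smul_zero, zero_add, smul_eq_mul, hD2, mul_one] at h2
  exact mul_ne_zero h3 hΔ0 h2

end

end Q36.IK
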