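import Pool.Agent.Q36.IK.Sf
import Pool.Agent.Q36.GP.Cp

/-!
Iitaka's inequality for varieties dominated by products.
-/

set_option autoImplicit false
set_option linter.overlappingInstances false
set_option linter.unusedSectionVars false

open Polynomial FF IsDedekindDomain IntermediateField
open Pool.Agent.W603.LV Pool.Agent.Y172 Pool.Agent.W619.TW Pool.Agent.W619.PQ Q36.GV Q36.PT
  Q36.GP

namespace Q36.IK

section

theorem reg_of_sec' {K L : Type} [Field K] [Field L] [Algebra K L] {n m : ℕ}
    {ω : (Fin n → Derivation K L L) → L} (h : IsSec K L n (fun _ => False) {1} m 0 ω) :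
    IsPluriForm K L n m ω ∧ ∀ u : Place K L, IsDivisorial u n → RegularAt u n ω := by
  obtain ⟨h1, h2, -⟩ := h
  refine ⟨h1, fun v hv D hD => ?_⟩
  rcases h2 v hv id D hD with h3 | ⟨x, hx, -, h3⟩
  · exact Or.inl h3
  · right
    simpa using h3

/-- the coordinates of the sections -/
theorem img_coord {K L : Type} [Field K] [CharZero K] [Field L] [Algebra K L] {n : ℕ}
    (hn : Algebra.trdeg K L = n) {m u : ℕ} (h : ImageGe K L n (fun _ => False) m u) :
    ∃ (z : Fin n → L) (E : Fin n → Derivation K L L), IsTranscendenceBasis K z ∧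
      (∀ i j, E i (z j) = if i = j then 1 else 0) ∧
      ∃ ω : Fin (u + 1) → (Fin n → Derivation K L L) → L,
        (∀ l, IsPluriForm K L n m (ω l) ∧
          ∀ v : Place K L, IsDivisorial v n → RegularAt v n (ω l)) ∧
        (∀ l, ω l E ≠ 0) ∧
        AlgebraicIndependent K (fun l : Fin u => ω l.succ E / ω 0 E) := by
  obtain ⟨z, E, hz, hE⟩ := exists_crd hn
  obtain ⟨ω, h1, D, h2, h3⟩ := h
  have hco : ∀ l, ω l D = (Matrix.of fun a b => D a (z b)).det ^ m * ω l E := fun l =>
    pluri_coord hz hE (h1 l).1 D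
  have hE0 : ∀ l, ω l E ≠ 0 := fun l h => h2 l (by rw [hco, h, mul_zero])
  have hdet : (Matrix.of fun a b => D a (z b)).det ^ m ≠ 0 := fun h =>
    h2 0 (by rw [hco, h, zero_mul])
  refine ⟨z, E, hz, hE, ω, fun l => reg_of_sec' (h1 l), hE0, ?_⟩
  convert h3 using 1
  funext l
  rw [hco, hco 0, mul_div_mul_left _ _ hdet]

end

section

variable {k M : Type} [Field k] [CharZero k] [IsAlgClosed k] [Field M] [Algebra k M]
  {s : ℕ} {d : Fin s → ℕ} (F : Fin s → IntermediateField k M)
  [hess : ∀ i, Algebra.EssFiniteType k (F i)]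

/-- a frame with the regular vector fields on the elliptic curves -/
theorem exists_ell (hd : ∀ i, Algebra.trdeg k (F i) = d i)
    (hM : Algebra.trdeg k M = (∑ i, d i : ℕ)) (hsup : ⨆ i, F i = ⊤) (S : Finset (Fin s))
    (hout : ∀ i, i ∉ S → d i = 1 ∧ IsFF k (F i) ∧ ∃ D : Derivation k (F i) (F i), RegVF D) :
    ∃ (y : ∀ i, Fin (d i) → F i) (X : Ix d → Derivation k M M) (ε : Ix d → M),
      Frm F y X ε ∧ EllOut F X S := by
  classical
  choose y E hy hE using fun i => exists_crd (hd i)
  have hD : ∀ i, ∃ D : Derivation k (F i) (F i), i ∉ S → RegVF D := by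
    intro i
    by_cases hi : i ∈ S
    · exact ⟨0, fun h => absurd hi h⟩
    · obtain ⟨-, -, D, hD⟩ := hout i hi
      exact ⟨D, fun _ => hD⟩
  choose D0 hD0 using hD
  let G : ∀ i, Fin (d i) → Derivation k (F i) (F i) := fun i l =>
    if i ∈ S then E i l else D0 i
  let ε : ∀ i, Fin (d i) → F i := fun i l => if i ∈ S then 1 else D0 i (y i l)
  have htr : ∀ i, i ∉ S → ∀ l, D0 i (y i l) ≠ 0 := by
    intro i hi l
    obtain ⟨-, hff, -⟩ := hout i hi
    have h1 : Transcendental k (y i l) := (hy i).1.transcendental l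
    exact der_ne_zero (hD0 i hi).1 h1
  have hfin1 : ∀ i, i ∉ S → ∀ l l' : Fin (d i), l = l' := by
    intro i hi l l'
    obtain ⟨h1, -, -⟩ := hout i hi
    apply Fin.ext
    have := l.2
    have := l'.2
    omega
  obtain ⟨X, hX, hXG⟩ := exists_frm hM hsup hy G ε (fun i l => by
    by_cases hi : i ∈ S
    · simp only [ε, if_pos hi]
      exact one_ne_zero
    · simp only [ε, if_neg hi]
      exact htr i hi l) (fun i l l' => by
    by_cases hi : i ∈ S
    · simp only [ε, G, if_pos hi]
      exact hE i l l'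
    · simp only [ε, G, if_neg hi]
      rw [if_pos (hfin1 i hi l l'), hfin1 i hi l l'])
  refine ⟨y, X, _, hX, fun i hi => ?_⟩
  obtain ⟨h1, h2, -⟩ := hout i hi
  refine ⟨h1, h2, D0 i, hD0 i hi, fun l z => ?_⟩
  rw [hXG ⟨i, l⟩ z]
  simp only [G, if_neg hi]

/-- **Iitaka's inequality: the upper bound for the fibre and the base.** -/
theorem iitaka_up (hd : ∀ i, Algebra.trdeg k (F i) = d i)
    (hM : Algebra.trdeg k M = (∑ i, d i : ℕ)) (hsup : ⨆ i, F i = ⊤) (S : Finset (Fin s))
    (hout : ∀ i, i ∉ S → d i = 1 ∧ IsFF k (F i) ∧ ∃ D : Derivation k (F i) (F i), RegVF D)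
    {K L : Type} [Field K] [Field L] [Algebra k K] [Algebra k L] [Algebra K L] [Algebra K M]
    [Algebra L M] [IsScalarTower k K L] [IsScalarTower k L M] [IsScalarTower k K M]
    [IsScalarTower K L M] [Algebra.IsAlgebraic L M]
    [Algebra.EssFiniteType k K] [Algebra.EssFiniteType k L] {p q : ℕ}
    (hK : Algebra.trdeg k K = p) (hL : Algebra.trdeg K L = q) {m m' u v : ℕ} (hm' : 1 ≤ m')
    (hF : ImageGe K L q (fun _ => False) m u) (hB : ImageGe k K p (fun _ => False) m' v) :
    u + v ≤ ∑ i ∈ S, d i := by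
  classical
  have hessM : Algebra.EssFiniteType k M := Q36.GV.ess_supW F hsup
  have hessKL : Algebra.EssFiniteType K L := Algebra.EssFiniteType.of_comp k K L
  have hK0 : CharZero K := charZero_of_injective_algebraMap (algebraMap k K).injective
  obtain ⟨y, X, ε, h, hell⟩ := exists_ell F hd hM hsup S hout
  obtain ⟨z, Ez, hz, hEz, η, h1, h2, h3⟩ := img_coord hK hB
  obtain ⟨t, Et, ht, hEt, ω, h4, h5, h6⟩ := img_coord hL hF
  obtain ⟨I0, P, τ, hp⟩ := exists_pd h hell hd hM hsup hK hz hEz hm' (h1 0).1 (h1 0).2 (h2 0)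
  -- transcendence degrees
  have hKM : Algebra.trdeg K M = q := by
    have h7 : IsTranscendenceBasis K (fun b => algebraMap L M (t b)) := ht.algebraMap_comp
    rw [← h7.cardinalMk_eq_trdeg]
    simp
  have hpq : p + q = ∑ i, d i := by
    have h7 := trdeg_add_eq k K (A := M)
    rw [hK, hKM, hM] at h7
    exact_mod_cast h7
  have hcard : Fintype.card {j : Ix d // j ∉ Set.range I0} = q := by
    rw [Fintype.card_subtype_compl, Set.card_range_of_injective hp.inj, Fintype.card_fin]
    have h7 : Fintype.card (Ix d) = ∑ i, d i := by simp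
    rw [h7]
    omega
  let e0 : Fin q ≃ {j : Ix d // j ∉ Set.range I0} :=
    (Fintype.equivFinOfCardEq hcard).symm
  let e : Fin q → Ix d := fun a => (e0 a).1
  have he : ∀ a, e a ∉ Set.range I0 := fun a => (e0 a).2
  have hei : Function.Injective e := fun a b hab => e0.injective (Subtype.ext hab)
  have hT := part_trdeg F hd hM hsup S
  have hadd := count (T := part F S) hT hK (g := fun l : Fin v => η l.succ Ez / η 0 Ez) h3
    (fun l => by
      obtain ⟨I, hI⟩ := minor_frm h hM (t := fun b => algebraMap K M (z b))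
        (hz.1.map' (f := IsScalarTower.toAlgHom k K M) (algebraMap K M).injective)
      have h7 := stepA h hell hd hM hsup hK hz hEz (h1 0).1 (h1 0).2 I
      have h8 := stepA h hell hd hM hsup hK hz hEz (h1 l.succ).1 (h1 l.succ).2 I
      have h9 := div_mem h8 h7
      rw [mul_div_mul_right _ _ (pow_ne_zero _ hI), ← map_div₀] at h9
      exact h9)
    (u := u) (r := fun l => algebraMap L M (ω l.succ Et / ω 0 Et))
    (h6.map' (f := IsScalarTower.toAlgHom K L M) (algebraMap L M).injective)
    (fun l => ratioB h hell hp hsup hL hKM ht hEt (h4 0).1 (h4 0).2 (h4 l.succ).1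
      (h4 l.succ).2 (h5 0) e he hei)
  exact hadd

end

end Q36.IK
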