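import Pool.Agent.Q36.IK.Ha

/-!
Fibrations of products with a rational curve.
-/

set_option autoImplicit false
set_option linter.overlappingInstances false
set_option linter.unusedSectionVars false

open Polynomial FF IsDedekindDomain IntermediateField
open Pool.Agent.W603.LV Pool.Agent.Y172 Pool.Agent.W619.TW Pool.Agent.W619.PQ Q36.GV Q36.PT
  Q36.GP

namespace Q36.IK

section

variable {k M : Type} [Field k] [CharZero k] [IsAlgClosed k] [Field M] [Algebra k M]
  {s : ℕ} {d : Fin s → ℕ} {F : Fin s → IntermediateField k M}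
  [hess : ∀ i, Algebra.EssFiniteType k (F i)]
  {y : ∀ i, Fin (d i) → F i} {X : Ix d → Derivation k M M} {ε : Ix d → M}

/-- scaling a frame with a function of one factor -/
theorem frm_scale (h : Frm F y X ε) {i0 : Fin s} {t : M} (ht : t ∈ F i0) (ht0 : t ≠ 0) :
    Frm F y (fun j => (if j.1 = i0 then t else 1) • X j)
      (fun j => (if j.1 = i0 then t else 1) * ε j) := by
  have hc : ∀ j : Ix d, (if j.1 = i0 then t else 1 : M) ≠ 0 := fun j => by
    split_ifs
    · exact ht0
    · exact one_ne_zero
  refine ⟨h.basis, fun j => mul_ne_zero (hc j) (h.ne j), fun j j' => ?_, fun j i hi z hz => ?_,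
    fun j z hz => ?_⟩
  · rw [Derivation.coe_smul, Pi.smul_apply, h.dual, smul_eq_mul]
    by_cases hjj : j = j'
    · rw [if_pos hjj, if_pos hjj]
    · rw [if_neg hjj, if_neg hjj, mul_zero]
  · rw [Derivation.coe_smul, Pi.smul_apply, h.kill j i hi z hz, smul_zero]
  · rw [Derivation.coe_smul, Pi.smul_apply, smul_eq_mul]
    refine mul_mem ?_ (h.stab j z hz)
    by_cases hj : j.1 = i0
    · rw [if_pos hj, hj]
      exact ht
    · rw [if_neg hj]
      exact one_mem _

end

section

variable {k M : Type} [Field k] [CharZero k] [IsAlgClosed k] [Field M] [Algebra k M]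
  {s : ℕ} {d : Fin s → ℕ} (F : Fin s → IntermediateField k M)
  [hess : ∀ i, Algebra.EssFiniteType k (F i)]

/-- **No fibration of a uniruled variety has a fibre and a base with pluricanonical forms.** -/
theorem iitaka_neg (hd : ∀ i, Algebra.trdeg k (F i) = d i)
    (hM : Algebra.trdeg k M = (∑ i, d i : ℕ)) (hsup : ⨆ i, F i = ⊤) (i0 : Fin s)
    (h1 : d i0 = 1) (hff : IsFF k (F i0)) {t : F i0} (ht : Transcendental k t)
    {D0 : Derivation k (F i0) (F i0)} (hD0 : RegVF D0) (hD1 : RegVF (t • D0))
    {K L : Type} [Field K] [Field L] [Algebra k K] [Algebra k L] [Algebra K L] [Algebra K M]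
    [Algebra L M] [IsScalarTower k K L] [IsScalarTower k L M] [IsScalarTower k K M]
    [IsScalarTower K L M] [Algebra.IsAlgebraic L M]
    [Algebra.EssFiniteType k K] [Algebra.EssFiniteType k L] {p q : ℕ}
    (hK : Algebra.trdeg k K = p) (hL : Algebra.trdeg K L = q) {m m' u v : ℕ} (hm : 1 ≤ m)
    (hm' : 1 ≤ m')
    (hF : ImageGe K L q (fun _ => False) m u) (hB : ImageGe k K p (fun _ => False) m' v) :
    False := by
  classical
  have hessM : Algebra.EssFiniteType k M := Q36.GV.ess_supW F hsup
  have hessKL : Algebra.EssFiniteType K L := Algebra.EssFiniteType.of_comp k K L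
  have hK0 : CharZero K := charZero_of_injective_algebraMap (algebraMap k K).injective
  let S : Finset (Fin s) := {i0}ᶜ
  have hS : ∀ i, i ∉ S ↔ i = i0 := fun i => by simp [S]
  have ht0 : (t : M) ≠ 0 := by
    intro h0
    apply ht
    have : t = 0 := Subtype.ext h0
    rw [this]
    exact isAlgebraic_zero
  have hcast : ∀ i, i = i0 → F i = F i0 := fun i hi => by rw [hi]
  -- the frames
  choose y E hy hE using fun i => exists_crd (hd i)
  let G : ∀ i, Fin (d i) → Derivation k (F i) (F i) := fun i l =>
    if h : i = i0 then h ▸ D0 else E i l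
  have hG0 : ∀ l, G i0 l = D0 := fun l => by simp [G]
  have hGne : ∀ i, i ≠ i0 → ∀ l, G i l = E i l := fun i hi l => by simp [G, hi]
  let ε : ∀ i, Fin (d i) → F i := fun i l => if i = i0 then G i l (y i l) else 1
  obtain ⟨X, hX, hXG⟩ := exists_frm hM hsup hy G ε (fun i l => by
    by_cases hi : i = i0
    · subst hi
      simp only [ε, if_true]
      rw [hG0]
      exact der_ne_zero hD0.1 ((hy i).1.transcendental l)
    · simp only [ε, if_neg hi]
      exact one_ne_zero) (fun i l l' => by
    by_cases hi : i = i0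
    · subst hi
      simp only [ε, if_true]
      have hll : l = l' := by
        apply Fin.ext
        have := l.2
        have := l'.2
        omega
      rw [if_pos hll, hll]
    · simp only [ε, if_neg hi]
      rw [hGne i hi]
      exact hE i l l')
  set ε' : Ix d → M := fun j => (ε j.1 j.2 : M) with hε'
  let c : Ix d → M := fun j => if j.1 = i0 then (t : M) else 1
  let X' : Ix d → Derivation k M M := fun j => c j • X j
  have hX' : Frm F y X' (fun j => c j * ε' j) := frm_scale hX t.2 ht0
  have hell : EllOut F X S := by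
    intro i hi
    have h2 := (hS i).1 hi
    subst h2
    refine ⟨h1, hff, D0, hD0, fun l z => ?_⟩
    rw [hXG ⟨i, l⟩ z, hG0]
  have hell' : EllOut F X' S := by
    intro i hi
    have h2 := (hS i).1 hi
    subst h2
    refine ⟨h1, hff, t • D0, hD1, fun l z => ?_⟩
    change c ⟨i, l⟩ * X ⟨i, l⟩ z = _
    rw [hXG ⟨i, l⟩ z, hG0]
    simp only [c, if_true]
    rfl
  let j0 : Ix d := ⟨i0, ⟨0, by omega⟩⟩
  have hj0 : ∀ j : Ix d, j.1 = i0 → j = j0 := fun j hj => ix_eq hell ((hS i0).2 rfl) hj
  have hj0S : j0.1 ∉ S := (hS i0).2 rfl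
  -- `t` is not algebraic over a field killed by the vector field
  have hXt : X j0 (t : M) ≠ 0 := by
    rw [hXG j0 t, hG0]
    intro h0
    exact der_ne_zero hD0.1 ht (Subtype.ext h0)
  have htr : ∀ N : IntermediateField k M, Kills (X j0) N → ∀ r : ℕ, 1 ≤ r →
      ¬ IsAlgebraic N ((t : M) ^ r) := by
    intro N hN r hr h0
    have h2 : IsAlgebraic N (t : M) := IsAlgebraic.of_pow (by omega) h0
    exact hXt (kills_alg hN h2)
  have hkT : Kills (X j0) (part F S) := hX.killN hj0S
  -- the minors
  obtain ⟨z, Ez, hz, hEz, η, h2, h3, h4⟩ := img_coord hK hB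
  have hΘ : ∀ I : Fin p → Ix d, (∃ a, (I a).1 = i0) →
      (Matrix.of fun a b => X (I a) (algebraMap K M (z b))).det = 0 := by
    intro I ⟨a0, ha0⟩
    by_contra hne
    have h5 := stepA hX hell hd hM hsup hK hz hEz (h2 0).1 (h2 0).2 I
    have h6 := stepA hX' hell' hd hM hsup hK hz hEz (h2 0).1 (h2 0).2 I
    have h7 : (Matrix.of fun a b => X' (I a) (algebraMap K M (z b))).det =
        (∏ a, c (I a)) * (Matrix.of fun a b => X (I a) (algebraMap K M (z b))).det := by
      rw [← Matrix.det_mul_column]
      rfl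
    have h8 : ∏ a, c (I a) = (t : M) ^ (Finset.univ.filter fun a => (I a).1 = i0).card := by
      simp only [c]
      rw [Finset.prod_ite, Finset.prod_const, Finset.prod_const_one, mul_one]
    have h9 := div_mem h6 h5
    rw [h7, h8, mul_pow, ← mul_assoc, mul_comm (algebraMap K M (η 0 Ez)), mul_assoc,
      mul_div_assoc, div_self (mul_ne_zero ((_root_.map_ne_zero _).2 (h3 0))
        (pow_ne_zero _ hne)), mul_one, ← pow_mul] at h9
    refine htr (part F S) hkT _ ?_ (isAlgebraic_algebraMap (⟨_, h9⟩ : part F S))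
    refine Nat.mul_pos (Finset.card_pos.2 ⟨a0, ?_⟩) hm'
    simp [ha0]
  obtain ⟨I1, hI1⟩ := minor_frm hX hM (t := fun b => algebraMap K M (z b))
    (hz.1.map' (f := IsScalarTower.toAlgHom k K M) (algebraMap K M).injective)
  have hXK : ∀ f : K, X j0 (algebraMap K M f) = 0 := by
    intro f
    have h5 := der_zero ((X j0).compAlgebraMap K) z hz (fun b => by
      change X j0 (algebraMap K M (z b)) = 0
      have h6 := cramer_frm (fun j b => X j (algebraMap K M (z b))) I1 j0 b
      rw [Finset.sum_eq_zero] at h6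
      · exact (mul_eq_zero.1 h6).resolve_left hI1
      · intro a _
        rw [hΘ (Function.update I1 a j0) ⟨a, by rw [Function.update_self]⟩, mul_zero]) f
    exact h5
  -- the vector fields along the fibres
  obtain ⟨I0, P, τ, hp⟩ := exists_pd hX hell hd hM hsup hK hz hEz hm' (h2 0).1 (h2 0).2 (h3 0)
  have hjI : j0 ∉ Set.range I0 := by
    intro hj
    have h5 := hp.uniq (X j0) hXK fun j hjr => by
      rw [hX.dual, if_neg]
      rintro rfl
      exact hjr hj
    apply hXt
    rw [h5]
    rfl
  have hP0 : P j0 = X j0 := by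
    have h5 := hp.uniq (P j0 - X j0) (fun f => by
      rw [Derivation.coe_sub, Pi.sub_apply, hp.killK, hXK, sub_zero]) fun j hjr => by
      rw [Derivation.coe_sub, Pi.sub_apply, hp.dual j0 j hjI hjr, hX.dual, sub_self]
    exact sub_eq_zero.1 h5
  -- the relative form
  obtain ⟨w, Ew, hw, hEw, ω, h5, h6, h7⟩ := img_coord hL hF
  have hKM : Algebra.trdeg K M = q := by
    have h7 : IsTranscendenceBasis K (fun b => algebraMap L M (w b)) := hw.algebraMap_comp
    rw [← h7.cardinalMk_eq_trdeg]
    simp
  have hpq : p + q = ∑ i, d i := by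
    have h7 := trdeg_add_eq k K (A := M)
    rw [hK, hKM, hM] at h7
    exact_mod_cast h7
  have hcard : Fintype.card {j : Ix d // j ∉ Set.range I0} = q := by
    rw [Fintype.card_subtype_compl, Set.card_range_of_injective hp.inj, Fintype.card_fin]
    have h7 : Fintype.card (Ix d) = ∑ i, d i := by simp
    rw [h7]
    omega
  let e0 : Fin q ≃ {j : Ix d // j ∉ Set.range I0} :=
    (Fintype.equivFinOfCardEq hcard).symm
  let e : Fin q → Ix d := fun a => (e0 a).1
  have he : ∀ a, e a ∉ Set.range I0 := fun a => (e0 a).2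
  have hei : Function.Injective e := fun a b hab => e0.injective (Subtype.ext hab)
  let a0 : Fin q := e0.symm ⟨j0, hjI⟩
  have ha0 : e a0 = j0 := by simp [e, a0]
  -- the field of the product of the other factors
  let N := part F S
  have hKN : ∀ f : K, algebraMap K M f ∈ N := by
    intro f
    by_contra hcon
    obtain ⟨D, hD2, hD3⟩ := exists_der_ne (M := N)
      (fun x hx => part_closed F hd hM hsup S hx) hcon
    rw [hX.span D, Finset.sum_eq_zero] at hD3
    · exact zero_ne_one hD3
    · intro j _
      by_cases hj : j.1 ∈ S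
      · rw [hD2 _ (le_part F hj (y j.1 j.2).2), zero_div, zero_mul]
      · rw [hj0 j ((hS _).1 hj), hXK, mul_zero]
  have hNff : IsFF N M := by
    have hR : Algebra.trdeg k (part F S) = (∑ i ∈ S, d i : ℕ) := part_trdeg F hd hM hsup S
    refine ff_of_trdeg hR ?_
    rw [hM]
    have h8 : ∑ i, d i = ∑ i ∈ S, d i + 1 := by
      rw [← Finset.sum_add_sum_compl S d]
      congr 1
      rw [show Sᶜ = {i0} from compl_compl _, Finset.sum_singleton, h1]
    rw [h8]
  have hPN : ∀ j, ∀ z ∈ N, P j z ∈ N := fun j z hz => by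
    rw [hp.exp]
    exact sum_mem fun i _ => mul_mem (hp.tau j i) (hX.stabN rfl i z hz)
  have hPreg : ∀ j (v : Place N M) (z : M), v.Reg z → v.Reg (P j z) := fun j v z hz =>
    pres_frm hX hell hsup le_rfl v (P j) (τ j) (fun i => hp.tau _ i) (hp.exp j) (hPN j) hz
  have hX'reg : ∀ (v : Place N M) (z : M), v.Reg z → v.Reg (X' j0 z) := fun v z hz => by
    refine pres_frm hX' hell' hsup le_rfl v (X' j0) (Pi.single j0 1) (fun j => ?_) (fun g => ?_)
      (hX'.stabN rfl j0) hz
    · by_cases hja : j = j0
      · rw [hja, Pi.single_eq_same]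
        exact one_mem _
      · rw [Pi.single_eq_of_ne hja]
        exact zero_mem _
    · rw [Finset.sum_eq_single j0]
      · rw [Pi.single_eq_same, one_mul]
      · intro j _ hja
        rw [Pi.single_eq_of_ne hja, zero_mul]
      · intro hi
        exact absurd (Finset.mem_univ _) hi
  let c' : Fin q → M := fun a => if a = a0 then (t : M) else 1
  have hc' : ∀ a (z : M), (c' a • P (e a)) z = if a = a0 then X' j0 z else P (e a) z := by
    intro a z
    by_cases ha : a = a0
    · rw [if_pos ha, ha, ha0, hP0]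
      change c' a0 * X j0 z = c j0 * X j0 z
      rw [show c' a0 = (t : M) from if_pos rfl, show c j0 = (t : M) from if_pos rfl]
    · rw [if_neg ha]
      change c' a * P (e a) z = _
      simp only [c', if_neg ha, one_mul]
  have h8 := stepB0 N hKN hL hKM hw hEw (h5 0).1 (h5 0).2 (fun a => P (e a))
    (fun a => hp.killK (e a)) fun a v z hz => hPreg _ v z hz
  have h9 := stepB0 N hKN hL hKM hw hEw (h5 0).1 (h5 0).2 (fun a => c' a • P (e a))
    (fun a f => by
      change c' a * P (e a) _ = 0
      rw [hp.killK, mul_zero]) fun a v z hz => by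
    rw [hc']
    split_ifs
    · exact hX'reg v z hz
    · exact hPreg _ v z hz
  have hdet := hp.det_ne hX hw e he hei
  have h10 : (Matrix.of fun a b => (c' a • P (e a)) (algebraMap L M (w b))).det =
      (∏ a, c' a) * (Matrix.of fun a b => P (e a) (algebraMap L M (w b))).det := by
    rw [← Matrix.det_mul_column]
    rfl
  have h11 : ∏ a, c' a = (t : M) := by
    rw [Finset.prod_ite_eq' Finset.univ a0, if_pos (Finset.mem_univ a0)]
  rw [h10, h11, mul_pow, ← mul_assoc, mul_comm (algebraMap L M _), mul_assoc] at h9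
  have hf0 : algebraMap L M (ω 0 Ew) *
      (Matrix.of fun a b => P (e a) (algebraMap L M (w b))).det ^ m ≠ 0 :=
    mul_ne_zero ((_root_.map_ne_zero _).2 (h6 0)) (pow_ne_zero _ hdet)
  have h12 := h9.mul h8.inv
  rw [mul_assoc, mul_inv_cancel₀ hf0, mul_one] at h12
  exact htr N hkT m hm h12

end

end Q36.IK
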