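import Pool.Agent.Q36.IK.Sh

/-!
Regular vector fields on rational curves, and fibrations of uniruled varieties.
-/

set_option autoImplicit false
set_option linter.overlappingInstances false
set_option linter.unusedSectionVars false

open Polynomial FF IsDedekindDomain IntermediateField
open Pool.Agent.W603.LV Pool.Agent.Y172 Pool.Agent.W619.TW Pool.Agent.W619.PQ Q36.GV Q36.PT
  Q36.GP

namespace Q36.IK

section

variable {k F : Type} [Field k] [CharZero k] [IsAlgClosed k] [Field F] [Algebra k F]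
  [hF : IsFF k F]

/-- uniformizers on a rational curve -/
theorem rat_unif {t : F} (ht : k⟮t⟯ = ⊤) (w : Place k F) :
    (∃ a : k, w.ord (t - algebraMap k F a) = 1) ∨ (t ≠ 0 ∧ w.ord t = -1) := by
  have htt : Transcendental k t := by
    intro hal
    obtain ⟨x, hx⟩ := hF.exists_transcendental (k := k) (K := F)
    apply hx
    have h1 : Algebra.IsAlgebraic k k⟮t⟯ :=
      IntermediateField.isAlgebraic_adjoin_simple hal.isIntegral
    have h2 : x ∈ k⟮t⟯ := by rw [ht]; trivial
    have h3 := h1.isAlgebraic (⟨x, h2⟩ : k⟮t⟯)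
    exact h3.algebraMap (A := F)
  have hdeg : ∀ f : F, Transcendental k f → k⟮f⟯ = ⊤ → -1 ≤ w.ord f := by
    intro f hf hft
    obtain ⟨S, h1, h2⟩ := poles hf
    rw [hft, IntermediateField.finrank_top] at h2
    by_contra hlt
    push Not at hlt
    have hw : w ∈ S := (h1 w).2 (by omega)
    have h3 : (-w.ord f).toNat * w.deg ≤ ∑ w ∈ S, (-w.ord f).toNat * w.deg :=
      Finset.single_le_sum (f := fun w : Place k F => (-w.ord f).toNat * w.deg)
        (fun _ _ => Nat.zero_le _) hw
    rw [h2] at h3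
    have h4 : 0 < w.deg := w.deg_pos
    have h5 : 2 ≤ (-w.ord f).toNat := by omega
    nlinarith
  by_cases hr : w.Reg t
  · left
    obtain ⟨a, ha⟩ := exists_const w (f := t) hr
    refine ⟨a, ?_⟩
    have h1 : Transcendental k (t - algebraMap k F a) := fun h => htt (by
      have h2 := h.add (isAlgebraic_algebraMap a)
      rwa [sub_add_cancel] at h2)
    have h0 : t - algebraMap k F a ≠ 0 := fun h => h1 (by rw [h]; exact isAlgebraic_zero)
    have h2 : k⟮(t - algebraMap k F a)⁻¹⟯ = ⊤ := by
      rw [adjoin_inv, eq_top_iff, ← ht, IntermediateField.adjoin_simple_le_iff]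
      have h3 := add_mem (mem_adjoin_simple_self k (t - algebraMap k F a))
        (IntermediateField.algebraMap_mem k⟮t - algebraMap k F a⟯ a)
      rwa [sub_add_cancel] at h3
    have h3 := hdeg _ (fun h => h1 (by simpa using h.inv)) h2
    rw [w.ord_inv] at h3
    have h4 : 1 ≤ w.ord (t - algebraMap k F a) := ha.resolve_left h0
    omega
  · right
    have h0 : t ≠ 0 := fun h => hr (Or.inl h)
    refine ⟨h0, ?_⟩
    have h1 := hdeg t htt ht
    rw [w.reg_iff h0, not_le] at hr
    omega

/-- **Two regular vector fields on a rational curve.** -/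
theorem rat_vf {t : F} (ht : k⟮t⟯ = ⊤) :
    Transcendental k t ∧ ∃ D : Derivation k F F, RegVF D ∧ RegVF (t • D) := by
  have htt : Transcendental k t := by
    intro hal
    obtain ⟨x, hx⟩ := hF.exists_transcendental (k := k) (K := F)
    apply hx
    have h1 : Algebra.IsAlgebraic k k⟮t⟯ :=
      IntermediateField.isAlgebraic_adjoin_simple hal.isIntegral
    have h2 : x ∈ k⟮t⟯ := by rw [ht]; trivial
    have h3 := h1.isAlgebraic (⟨x, h2⟩ : k⟮t⟯)
    exact h3.algebraMap (A := F)
  refine ⟨htt, ?_⟩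
  have ht0 : t ≠ 0 := fun h => htt (by rw [h]; exact isAlgebraic_zero)
  obtain ⟨D1, hD1⟩ := exists_der (k := k) (K := F)
  have hDt := der_ne_zero hD1 htt
  let D : Derivation k F F := (D1 t)⁻¹ • D1
  have hD : D t = 1 := by
    change (D1 t)⁻¹ * D1 t = 1
    exact inv_mul_cancel₀ hDt
  have hD0 : D ≠ 0 := fun h => by
    rw [h] at hD
    exact zero_ne_one hD
  have key : ∀ E : Derivation k F F, E ≠ 0 →
      (∀ (w : Place k F) (a : k), w.ord (t - algebraMap k F a) = 1 → w.Reg (E t)) →
      (∀ w : Place k F, w.ord t = -1 → w.Reg (t⁻¹ ^ 2 * E t)) → RegVF E := by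
    intro E hE h1 h2
    refine ⟨hE, fun w z hz => ?_⟩
    rcases rat_unif ht w with ⟨a, ha⟩ | ⟨-, ha⟩
    · obtain ⟨g, hg, hg'⟩ := der_mul w ha hE hz
      rw [hg', map_sub, E.map_algebraMap, sub_zero]
      exact w.reg_mul (h1 w a ha) hg
    · have h3 : w.ord t⁻¹ = 1 := by
        rw [w.ord_inv, ha]
        norm_num
      obtain ⟨g, hg, hg'⟩ := der_mul w h3 hE hz
      rw [hg', E.leibniz_inv]
      refine w.reg_mul ?_ hg
      have h4 := w.reg_mul (w.reg_const (-1 : k)) (h2 w ha)
      convert h4 using 1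
      rw [map_neg, map_one, smul_eq_mul]
      ring
  refine ⟨D, key D hD0 (fun w a ha => ?_) (fun w ha => ?_), key (t • D) (fun h => ?_)
    (fun w a ha => ?_) fun w ha => ?_⟩
  · rw [hD]
    have h1 := w.reg_const (1 : k)
    rwa [map_one] at h1
  · rw [hD, mul_one]
    refine Or.inr ?_
    rw [pow_two, w.ord_mul (inv_ne_zero ht0) (inv_ne_zero ht0), w.ord_inv, ha]
    norm_num
  · have h1 : (t • D) t = 0 := by rw [h]; rfl
    change t * D t = 0 at h1
    rw [hD, mul_one] at h1
    exact ht0 h1
  · change w.Reg (t * D t)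
    rw [hD, mul_one]
    have h1 : w.Reg (t - algebraMap k F a) := Or.inr (by rw [ha]; norm_num)
    have h2 := w.reg_add h1 (w.reg_const a)
    rwa [sub_add_cancel] at h2
  · change w.Reg (t⁻¹ ^ 2 * (t * D t))
    rw [hD, mul_one]
    refine Or.inr ?_
    have h1 : t⁻¹ ^ 2 * t = t⁻¹ := by field_simp
    rw [h1, w.ord_inv, ha]
    norm_num

end

end Q36.IK
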